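import Pool.Agent.LSC.Df

/-!
# The cost of a mixed solution
-/

set_option autoImplicit false

namespace Pool.Agent.LSC

open Pool.Agent.Helper82.CKM

section

variable {I : Inst}

open Classical in
/-- PROOF. The set of the `j` with `∃ h ∈ Y, j ∈ C h` is `Y.biUnion C`; `Finset.sum_ite`,
`Finset.sum_biUnion`. -/
theorem sum_if {D F : Type} [Fintype D] (f g : D → ℝ) (C : F → Finset D) (Y : Finset F)
    (hd : ∀ h ∈ Y, ∀ h' ∈ Y, h ≠ h' → Disjoint (C h) (C h')) :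
    ∑ j, (if (∃ h ∈ Y, j ∈ C h) then f j else g j) =
      ∑ j, g j + ∑ h ∈ Y, ∑ j ∈ C h, (f j - g j) := by
  have h1 : ∑ h ∈ Y, ∑ j ∈ C h, (f j - g j) = ∑ j ∈ Y.biUnion C, (f j - g j) := by
    rw [Finset.sum_biUnion]
    intro h hh h' hh' hne
    exact hd h hh h' hh' hne
  have h2 : ∑ j ∈ Y.biUnion C, (f j - g j) =
      ∑ j, (if (∃ h ∈ Y, j ∈ C h) then f j - g j else 0) := by
    rw [← Finset.sum_filter]
    apply Finset.sum_congr _ fun _ _ => rfl
    ext j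
    simp only [Finset.mem_biUnion, Finset.mem_filter, Finset.mem_univ, true_and]
  rw [h1, h2, ← Finset.sum_add_distrib]
  apply Finset.sum_congr rfl
  intro j _
  split_ifs
  · ring
  · ring

open Classical in
/-- PROOF. `cost_eq`, `sum_if`. -/
theorem cost_if (s o t : Sol I) (C : I.F → Finset I.D) (Y : Finset I.F)
    (hd : ∀ h ∈ Y, ∀ h' ∈ Y, h ≠ h' → Disjoint (C h) (C h'))
    (ht : ∀ j, t.σ j = if (∃ h ∈ Y, j ∈ C h) then o.σ j else s.σ j) :
    t.cost = s.cost + ∑ h ∈ Y, ∑ j ∈ C h, (cs o j - cs s j) := by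
  rw [cost_eq, cost_eq, ← sum_if (cs o) (cs s) C Y hd]
  apply Finset.sum_congr rfl
  intro j _
  unfold cs
  rw [ht j]
  split_ifs
  · rfl
  · rfl

end

end Pool.Agent.LSC
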