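import Pool.Agent.LSC.Tr
import Pool.Agent.LSC.Ci

/-!
# Closing facilities
-/

set_option autoImplicit false

namespace Pool.Agent.LSC

open Pool.Agent.Helper82.CKM

section

variable {I : Inst} {u : ℕ}

/-- PROOF. Induction on `Z.card - c`: if `c < Z.card` remove an element `m` with maximal `w m`
(`Finset.exists_max_image`): `Z.card * w m ≥ ∑ Z w`, so
`Z.card * ∑ (Z.erase m) w ≤ (Z.card - 1) * ∑ Z w`; apply the induction hypothesis to `Z.erase m` (`Z.card - 1` elements) and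
multiply. (`Z.card = 1`, `c = 0`: `Z' = ∅`.) -/
theorem choose_min {α : Type} (Z : Finset α) (w : α → ℝ) (c : ℕ) (hc : c ≤ Z.card) :
    ∃ Z' ⊆ Z, Z'.card = c ∧ (Z.card : ℝ) * ∑ z ∈ Z', w z ≤ c * ∑ z ∈ Z, w z := by
  classical
  obtain ⟨n, hn⟩ : ∃ n, Z.card = c + n := ⟨Z.card - c, by omega⟩
  induction n generalizing Z with
  | zero => exact ⟨Z, subset_rfl, by omega, by rw [hn, add_zero]⟩
  | succ n ih =>
    obtain ⟨m, hm, hmax⟩ := Z.exists_max_image w (Finset.card_pos.1 (by omega))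
    have hc1 : (Z.erase m).card = c + n := by
      rw [Finset.card_erase_of_mem hm, hn]
      omega
    obtain ⟨Z', hZ', hcard, hle⟩ := ih (Z.erase m) (by omega) hc1
    refine ⟨Z', hZ'.trans (Finset.erase_subset _ _), hcard, ?_⟩
    rcases Nat.eq_zero_or_pos (c + n) with h0 | h0
    · have hc0 : c = 0 := by omega
      rw [hc0] at hcard
      rw [Finset.card_eq_zero.1 hcard, hc0]
      simp
    · have hsum : ∑ z ∈ Z, w z = w m + ∑ z ∈ Z.erase m, w z := (Finset.add_sum_erase Z w hm).symm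
      have hmw : ∑ z ∈ Z, w z ≤ Z.card * w m := by
        have h1 := Finset.sum_le_card_nsmul Z w (w m) hmax
        rwa [nsmul_eq_mul] at h1
      have hN : (Z.card : ℝ) = ((c + n : ℕ) : ℝ) + 1 := by
        rw [hn]
        push_cast
        ring
      have hpos : (0 : ℝ) < ((c + n : ℕ) : ℝ) := by exact_mod_cast h0
      rw [hc1] at hle
      rw [hN] at hmw ⊢
      obtain ⟨M, hM⟩ : ∃ M : ℝ, M = ((c + n : ℕ) : ℝ) := ⟨_, rfl⟩
      obtain ⟨A, hA⟩ : ∃ A : ℝ, A = ∑ z ∈ Z', w z := ⟨_, rfl⟩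
      obtain ⟨B, hB⟩ : ∃ B : ℝ, B = ∑ z ∈ Z.erase m, w z := ⟨_, rfl⟩
      obtain ⟨S, hS⟩ : ∃ S : ℝ, S = ∑ z ∈ Z, w z := ⟨_, rfl⟩
      rw [← hM] at hle hmw hpos ⊢
      rw [← hA] at hle ⊢
      rw [← hB] at hle hsum
      rw [← hS] at hsum hmw ⊢
      have hc0 : (0 : ℝ) ≤ c := Nat.cast_nonneg c
      have h2 : (M + 1) * B ≤ M * S := by
        have h3 : w m = S - B := by linarith
        rw [h3] at hmw
        linarith
      have h4 : M * ((M + 1) * A) ≤ M * (c * S) := by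
        calc M * ((M + 1) * A) = (M + 1) * (M * A) := by ring
          _ ≤ (M + 1) * (c * B) := mul_le_mul_of_nonneg_left hle (by linarith)
          _ = c * ((M + 1) * B) := by ring
          _ ≤ c * (M * S) := mul_le_mul_of_nonneg_left h2 hc0
          _ = M * (c * S) := by ring
      exact le_of_mul_le_mul_left h4 hpos

open Classical in
/-- Classes of clients for the facilities of `w` that are not in `t`.
PROOF. `b`, `a` slot maps of `w` and `t` (`exists_slot`). `C z := {j | Fw a b (fun x => (b x).1 = z) j}`. For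
`z ∉ t.S` an `x` with `(b x).1 = z` has no predecessor: `b x = a y` gives `t.σ y = z`. So the
`C z`, `z ∈ w.S \ t.S`, are disjoint (`fw_unique`; `(b x).1 = z` and `(b x).1 = z'` give `z = z'`), and closed under successors
(`fw_succ`) and predecessors (`fw_pred`). (i) `A := ∃ z ∈ Z, j ∈ C z` is closed under successors: `glue_inj`, `sol_of_slot` with the
open set `w.S \ Z`: if `A j` then `t.σ j ∈ t.S ⊆ w.S`, not in `Z`; if not `A j` then `w.σ j ∉ Z` (zero
steps). (ii) `A := ¬ ∃ z ∈ w.S \ t.S, j ∈ C z` is closed under successors by `fw_pred`. -/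
theorem close_classes (hU : ∀ i, I.U i = u) (w t : Sol I) (hts : t.S ⊆ w.S) :
    ∃ C : I.F → Finset I.D,
    (∀ z ∈ w.S \ t.S, ∀ z' ∈ w.S \ t.S, z ≠ z' → Disjoint (C z) (C z')) ∧
    (∀ Z ⊆ w.S \ t.S, ∃ v : Sol I, v.S = w.S \ Z ∧
      ∀ j, v.σ j = if (∃ z ∈ Z, j ∈ C z) then t.σ j else w.σ j) ∧
    (∃ v : Sol I, v.S = w.S ∧
      ∀ j, v.σ j = if (∃ z ∈ w.S \ t.S, j ∈ C z) then w.σ j else t.σ j) := by
  obtain ⟨b, hb, hbw⟩ := exists_slot hU w
  obtain ⟨a, ha, hat⟩ := exists_slot hU t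
  have hE : ∀ z ∈ w.S \ t.S, ∀ x y, (b y).1 = z → ¬ Stp a b x y := by
    intro z hz x y hy hs
    have h1 : b y = a x := hs
    rw [h1, hat] at hy
    rw [← hy] at hz
    exact (Finset.mem_sdiff.1 hz).2 (t.mem x)
  have hmem : ∀ z j, j ∈ (Finset.univ.filter fun j => Fw a b (fun x => (b x).1 = z) j) ↔
      Fw a b (fun x => (b x).1 = z) j := fun z j => by simp
  refine ⟨fun z => Finset.univ.filter fun j => Fw a b (fun x => (b x).1 = z) j, ?_, ?_, ?_⟩
  · intro z hz z' hz' hne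
    rw [Finset.disjoint_left]
    intro j h1 h2
    rw [hmem] at h1 h2
    obtain ⟨x, hx, hx'⟩ := fw_unique ha (hE z hz) (hE z' hz') h1 h2
    exact hne (hx.symm.trans hx')
  · intro Z hZ
    have hA : ∀ x y, Stp a b x y →
        (∃ z ∈ Z, x ∈ (Finset.univ.filter fun j => Fw a b (fun x => (b x).1 = z) j)) →
        (∃ z ∈ Z, y ∈ (Finset.univ.filter fun j => Fw a b (fun x => (b x).1 = z) j)) := by
      rintro x y hs ⟨z, hz, hx⟩
      rw [hmem] at hx
      exact ⟨z, hz, (hmem z y).2 (fw_succ hs hx)⟩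
    obtain ⟨v, hvS, hv⟩ := sol_of_slot hU (w.S \ Z) _ (glue_inj ha hb hA) (by
      intro j
      split_ifs with h
      · rw [hat]
        refine Finset.mem_sdiff.2 ⟨hts (t.mem j), fun h1 => ?_⟩
        exact (Finset.mem_sdiff.1 (hZ h1)).2 (t.mem j)
      · rw [hbw]
        refine Finset.mem_sdiff.2 ⟨w.mem j, fun h1 => h ⟨w.σ j, h1, (hmem _ j).2 ?_⟩⟩
        exact ⟨j, hbw j, Relation.ReflTransGen.refl⟩)
    refine ⟨v, hvS, fun j => ?_⟩
    rw [hv]
    split_ifs
    · exact hat j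
    · exact hbw j
  · have hA : ∀ x y, Stp a b x y →
        (¬ ∃ z ∈ w.S \ t.S,
          x ∈ (Finset.univ.filter fun j => Fw a b (fun x => (b x).1 = z) j)) →
        (¬ ∃ z ∈ w.S \ t.S,
          y ∈ (Finset.univ.filter fun j => Fw a b (fun x => (b x).1 = z) j)) := by
      rintro x y hs hx ⟨z, hz, hy⟩
      rw [hmem] at hy
      exact hx ⟨z, hz, (hmem z x).2 (fw_pred ha (hE z hz) hs hy)⟩
    obtain ⟨v, hvS, hv⟩ := sol_of_slot hU w.S _ (glue_inj ha hb hA) (by
      intro j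
      split_ifs with h
      · rw [hbw]
        exact w.mem j
      · rw [hat]
        exact hts (t.mem j))
    refine ⟨v, hvS, fun j => ?_⟩
    rw [hv]
    by_cases h : ∃ z ∈ w.S \ t.S,
        j ∈ (Finset.univ.filter fun j => Fw a b (fun x => (b x).1 = z) j)
    · rw [if_neg (not_not.2 h), if_pos h]
      exact hbw j
    · rw [if_pos h, if_neg h]
      exact hat j

open Classical in
/-- Closing `c` facilities.
PROOF. `close_classes`; `W z := ∑ j ∈ C z, (cs t j - cs w j)`; `choose_min` for `w.S \ t.S` and `W`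
gives `Z'`; `v` of (i) for `Z'` costs `w.cost + ∑ z ∈ Z', W z` (`cost_if`). The solution of (ii) costs `t.cost + ∑ z ∈ w.S \ t.S, ∑ j ∈ C z, (cs w j - cs t j)`
(`cost_if` with the roles of the two solutions exchanged), which is at
least `w.cost` (`hopt`), so `∑ z ∈ w.S \ t.S, W z ≤ t.cost - w.cost`. -/
theorem closing (hU : ∀ i, I.U i = u) (w t : Sol I) (hts : t.S ⊆ w.S)
    (hopt : ∀ v : Sol I, v.S ⊆ w.S → w.cost ≤ v.cost) (c : ℕ) (hc : c ≤ (w.S \ t.S).card) :
    ∃ v : Sol I, v.S ⊆ w.S ∧ v.size + c = w.size ∧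
      ((w.S \ t.S).card : ℝ) * v.cost ≤
        ((w.S \ t.S).card : ℝ) * w.cost + c * (t.cost - w.cost) := by
  obtain ⟨C, hd, h1, ⟨v0, hv0S, hv0σ⟩⟩ := close_classes hU w t hts
  obtain ⟨Z, hZ, hZc, hZw⟩ := choose_min (w.S \ t.S)
    (fun z => ∑ j ∈ C z, (cs t j - cs w j)) c hc
  obtain ⟨v, hvS, hvσ⟩ := h1 Z hZ
  have hcv := cost_if w t v C Z (fun h hh h' hh' hne => hd h (hZ hh) h' (hZ hh') hne) hvσ
  have hcv0 := cost_if t w v0 C (w.S \ t.S) hd hv0σ
  have hle : w.cost ≤ v0.cost := hopt v0 (by rw [hv0S])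
  have hneg : ∑ z ∈ w.S \ t.S, ∑ j ∈ C z, (cs w j - cs t j) =
      -∑ z ∈ w.S \ t.S, ∑ j ∈ C z, (cs t j - cs w j) := by
    rw [← Finset.sum_neg_distrib]
    refine Finset.sum_congr rfl fun z _ => ?_
    rw [← Finset.sum_neg_distrib]
    refine Finset.sum_congr rfl fun j _ => ?_
    ring
  rw [hneg] at hcv0
  have hsum : ∑ z ∈ w.S \ t.S, ∑ j ∈ C z, (cs t j - cs w j) ≤ t.cost - w.cost := by
    linarith
  have hZsub : Z ⊆ w.S := hZ.trans Finset.sdiff_subset
  refine ⟨v, ?_, ?_, ?_⟩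
  · rw [hvS]
    exact Finset.sdiff_subset
  · have h2 : v.size = w.S.card - Z.card := by
      show v.S.card = _
      rw [hvS, Finset.card_sdiff_of_subset hZsub]
    have h3 := Finset.card_le_card hZsub
    have h4 : w.size = w.S.card := rfl
    omega
  · rw [hcv, mul_add]
    have h5 : (c : ℝ) * ∑ z ∈ w.S \ t.S, ∑ j ∈ C z, (cs t j - cs w j) ≤
        c * (t.cost - w.cost) := mul_le_mul_of_nonneg_left hsum (Nat.cast_nonneg c)
    linarith

end

end Pool.Agent.LSC
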