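import Pool.Agent.LSC.Df

/-!
# Consolidation: the matrix of an assignment and its changes

`ω : D → F` are the clusters. `mt S u ω τ` is the matrix of the assignment `τ` with rows `Option F`
(clusters and, for `none`, the unused capacity) and columns `F`.
-/

set_option autoImplicit false

namespace Pool.Agent.LSC

open Pool.Agent.Helper82.CKM

section

variable {D F : Type} [Fintype D] [Fintype F]

open Classical in
/-- the matrix of an assignment with slack -/
noncomputable def mt (S : Finset F) (u : ℕ) (ω τ : D → F) : Option F → F → ℤ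
  | some o, s => ((Finset.univ.filter fun j => ω j = o ∧ τ j = s).card : ℤ)
  | none, s => if s ∈ S then (u : ℤ) - ((Finset.univ.filter fun j => τ j = s).card : ℤ) else 0

open Classical in
/-- assignments to `S` with at most `u` clients per facility -/
def Adm (S : Finset F) (u : ℕ) (τ : D → F) : Prop :=
  (∀ j, τ j ∈ S) ∧ ∀ i, (Finset.univ.filter fun j => τ j = i).card ≤ u

/-- the cost -/
noncomputable def cc (c : F → F → ℝ) (ω τ : D → F) : ℝ := ∑ j, c (ω j) (τ j)

/-- the sum of the squares of the entries -/
noncomputable def en (N : Option F → F → ℤ) : ℤ := ∑ a, ∑ s, N a s ^ 2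

/-- PROOF. Definition of `mt`; `Adm` for `none`. -/
theorem mt_nonneg {S : Finset F} {u : ℕ} {ω τ : D → F} (h : Adm S u τ) (a : Option F) (s : F) :
    0 ≤ mt S u ω τ a s := by
  classical
  cases a with
  | some o => simp only [mt]; positivity
  | none =>
    simp only [mt]
    split_ifs with hs
    · have h2 := h.2 s
      have h3 : ((Finset.univ.filter fun j => τ j = s).card : ℤ) ≤ (u : ℤ) := by exact_mod_cast h2
      linarith
    · exact le_refl _

open Classical in
/-- The columns sum to `u` in `S`, and to `0` outside of `S`.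
PROOF. `Fintype.sum_option`; the fibre of `τ` over `s` is the disjoint union of the sets
`ω j = o ∧ τ j = s` (`Finset.card_eq_sum_card_fiberwise`). Outside of `S` the fibre is empty. -/
theorem mt_col {S : Finset F} {u : ℕ} {ω τ : D → F} (h : Adm S u τ) (s : F) :
    ∑ a, mt S u ω τ a s = if s ∈ S then (u : ℤ) else 0 := by
  have h1 : ∑ o, mt S u ω τ (some o) s
      = ((Finset.univ.filter fun j => τ j = s).card : ℤ) := by
    have h0 := Finset.card_eq_sum_card_fiberwise (f := ω)
      (s := Finset.univ.filter fun j => τ j = s) (t := Finset.univ) (fun _ _ => by simp)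
    rw [h0]
    push_cast
    refine Finset.sum_congr rfl fun o _ => ?_
    simp only [mt]
    congr 2
    rw [Finset.filter_filter]
    refine Finset.filter_congr fun j _ => ?_
    exact and_comm
  rw [Fintype.sum_option, h1]
  simp only [mt]
  split_ifs with hs
  · ring
  · have h2 : (Finset.univ.filter fun j => τ j = s) = ∅ := by
      rw [Finset.filter_eq_empty_iff]
      intro j _ hj
      exact hs (hj ▸ h.1 j)
    rw [h2]
    simp

open Classical in
/-- PROOF. As `mt_col`. -/
theorem mt_row {S : Finset F} {u : ℕ} {ω τ : D → F} (o : F) :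
    ∑ s, mt S u ω τ (some o) s = ((Finset.univ.filter fun j => ω j = o).card : ℤ) := by
  have h0 := Finset.card_eq_sum_card_fiberwise (f := τ)
    (s := Finset.univ.filter fun j => ω j = o) (t := Finset.univ) (fun _ _ => by simp)
  rw [h0]
  push_cast
  refine Finset.sum_congr rfl fun s _ => ?_
  simp only [mt]
  congr 2
  rw [Finset.filter_filter]

/-- PROOF. Group the clients by `(ω j, τ j)` (`Finset.sum_fiberwise` twice, or
`Finset.sum_comm'`; compare `sum_count` in Helper82/CKM/Merge.lean). -/
theorem cc_eq {S : Finset F} {u : ℕ} (c : F → F → ℝ) (ω τ : D → F) :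
    cc c ω τ = ∑ o, ∑ s, (mt S u ω τ (some o) s : ℝ) * c o s := by
  classical
  unfold cc
  rw [← Finset.sum_fiberwise Finset.univ ω]
  refine Finset.sum_congr rfl fun o _ => ?_
  rw [← Finset.sum_fiberwise (Finset.univ.filter fun j => ω j = o) τ]
  refine Finset.sum_congr rfl fun s _ => ?_
  rw [Finset.filter_filter, Finset.sum_congr rfl (g := fun _ => c o s)]
  · rw [Finset.sum_const, nsmul_eq_mul]
    simp only [mt]
    norm_cast
  · intro j hj
    rw [(Finset.mem_filter.1 hj).2.1, (Finset.mem_filter.1 hj).2.2]

open Classical in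
private theorem mt_move_fib (ω τ : D → F) (s : F) :
    ((Finset.univ.filter fun j => τ j = s).card : ℤ) =
      ∑ o, ((Finset.univ.filter fun j => ω j = o ∧ τ j = s).card : ℤ) := by
  have h1 := Finset.card_eq_sum_card_fiberwise (f := ω) (s := Finset.univ.filter fun j => τ j = s)
    (t := Finset.univ) (fun j _ => Finset.mem_coe.2 (Finset.mem_univ _))
  rw [h1]
  push_cast
  refine Finset.sum_congr rfl fun o _ => ?_
  rw [Finset.filter_filter]
  congr 2
  ext j
  rw [Finset.mem_filter, Finset.mem_filter]
  exact and_congr Iff.rfl and_comm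

/-- Changing an assignment by an integer matrix.
PROOF. `realise` (Helper82/CKM/Plan.lean) for `σ := ω` and `N o s := mt (some o) s + ψ (some o) s`
(`IsPlan` with `c := fun s => ∑ o, N o s`; nonnegative by `hψ0`) gives `τ'` with
`#{ω j = o ∧ τ' j = s} = N o s`, so `mt (some o) s` changes by `ψ (some o) s`. The fibre of `τ'`
over `s` has `∑ o, N o s = (u - mt none s) - ψ none s` elements for `s ∈ S` (`mt_col`, zero column
sums of `ψ`), so `mt none s` changes by `ψ none s`, and the fibre has at most `u` elements
(`hψ0` for `none`). For `s ∉ S` all entries of the column `s` of `mt` and `ψ` vanish (`mt_col`,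
`mt_nonneg`, `hψ1`), so the fibre is empty. The cost is `cc_eq`. -/
theorem mt_move {S : Finset F} {u : ℕ} {ω τ : D → F} (h : Adm S u τ) (c : F → F → ℝ)
    (ψ : Option F → F → ℤ) (hψ0 : ∀ a s, 0 ≤ mt S u ω τ a s + ψ a s)
    (hψ1 : ∀ a s, ψ a s ≠ 0 → s ∈ S) (hr : ∀ a, ∑ s, ψ a s = 0) (hc : ∀ s, ∑ a, ψ a s = 0) :
    ∃ τ' : D → F, Adm S u τ' ∧ (∀ a s, mt S u ω τ' a s = mt S u ω τ a s + ψ a s) ∧
      cc c ω τ' = cc c ω τ + ∑ o, ∑ s, (ψ (some o) s : ℝ) * c o s := by
  classical
  have hrow : ∀ o, ∑ s, (mt S u ω τ (some o) s + ψ (some o) s) =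
      ((Finset.univ.filter fun j => ω j = o).card : ℤ) := by
    intro o
    rw [Finset.sum_add_distrib, mt_row o, hr (some o), add_zero]
  obtain ⟨τ', hτ'⟩ := realise ω (c := fun s => ∑ o, (mt S u ω τ (some o) s + ψ (some o) s))
    (N := fun o s => mt S u ω τ (some o) s + ψ (some o) s)
    ⟨fun o s => hψ0 (some o) s, hrow, fun _ => rfl⟩
  have hs : ∀ o s, mt S u ω τ' (some o) s = mt S u ω τ (some o) s + ψ (some o) s :=
    fun o s => hτ' o s
  have hfib : ∀ s, ((Finset.univ.filter fun j => τ' j = s).card : ℤ) =
      ∑ o, (mt S u ω τ (some o) s + ψ (some o) s) := by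
    intro s
    rw [mt_move_fib ω τ' s]
    exact Finset.sum_congr rfl fun o _ => hτ' o s
  have hcol : ∀ s, mt S u ω τ none s + ∑ o, mt S u ω τ (some o) s =
      if s ∈ S then (u : ℤ) else 0 := by
    intro s
    have h0 := mt_col (ω := ω) h s
    rw [Fintype.sum_option] at h0
    exact h0
  have hc' : ∀ s, ψ none s + ∑ o, ψ (some o) s = 0 := by
    intro s
    have h0 := hc s
    rw [Fintype.sum_option] at h0
    exact h0
  have hin : ∀ s ∈ S, ((Finset.univ.filter fun j => τ' j = s).card : ℤ) =
      u - (mt S u ω τ none s + ψ none s) := by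
    intro s hsS
    have h1 := hcol s
    rw [if_pos hsS] at h1
    have h2 := hc' s
    rw [hfib s, Finset.sum_add_distrib]
    linarith
  have hout : ∀ s, s ∉ S → ((Finset.univ.filter fun j => τ' j = s).card : ℤ) = 0 := by
    intro s hsS
    have h1 := hcol s
    rw [if_neg hsS] at h1
    have h2 : ∀ a, ψ a s = 0 := fun a => by
      by_contra hne
      exact hsS (hψ1 a s hne)
    have h3 : mt S u ω τ none s = 0 := if_neg hsS
    rw [h3, zero_add] at h1
    rw [hfib s, Finset.sum_add_distrib, h1]
    simp only [h2, Finset.sum_const_zero, add_zero]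
  refine ⟨τ', ⟨fun j => ?_, fun i => ?_⟩, ?_, ?_⟩
  · by_contra hj
    have h1 := hout _ hj
    have h2 : j ∈ Finset.univ.filter fun j' => τ' j' = τ' j :=
      Finset.mem_filter.2 ⟨Finset.mem_univ j, rfl⟩
    have h3 := Finset.card_pos.2 ⟨j, h2⟩
    omega
  · by_cases hi : i ∈ S
    · have h1 := hin i hi
      have h2 := hψ0 none i
      have h3 : ((Finset.univ.filter fun j => τ' j = i).card : ℤ) ≤ u := by linarith
      exact_mod_cast h3
    · have h1 := hout i hi
      have h3 : ((Finset.univ.filter fun j => τ' j = i).card : ℤ) ≤ u := by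
        rw [h1]
        exact Int.natCast_nonneg u
      exact_mod_cast h3
  · intro a s
    cases a with
    | some o => exact hs o s
    | none =>
      by_cases hsS : s ∈ S
      · have h1 := hin s hsS
        have h2 : mt S u ω τ' none s =
            (u : ℤ) - ((Finset.univ.filter fun j => τ' j = s).card : ℤ) := by
          convert (if_pos hsS : (if s ∈ S then
            (u : ℤ) - ((Finset.univ.filter fun j => τ' j = s).card : ℤ) else 0) = _) using 1
          simp only [mt]
        rw [h2, h1]
        ring
      · have h2 : mt S u ω τ' none s = 0 := if_neg hsS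
        have h3 : mt S u ω τ none s = 0 := if_neg hsS
        have h4 : ψ none s = 0 := by
          by_contra hne
          exact hsS (hψ1 none s hne)
        rw [h2, h3, h4, add_zero]
  · rw [cc_eq (S := S) (u := u) c ω τ', cc_eq (S := S) (u := u) c ω τ, ← Finset.sum_add_distrib]
    refine Finset.sum_congr rfl fun o _ => ?_
    rw [← Finset.sum_add_distrib]
    refine Finset.sum_congr rfl fun s _ => ?_
    rw [hs o s, Int.cast_add, add_mul]

end

end Pool.Agent.LSC
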