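import Pool.Agent.LSC.Con0

/-!
# Consolidation: an extreme optimal assignment
-/

set_option autoImplicit false

namespace Pool.Agent.LSC

open Pool.Agent.Helper82.CKM

section

variable {D F : Type} [Fintype D] [Fintype F]

open Classical in
/-- the support of the matrix -/
noncomputable def sup (S : Finset F) (u : ℕ) (ω τ : D → F) : Finset (Option F × F) :=
  Finset.univ.filter fun x => mt S u ω τ x.1 x.2 ≠ 0

/-- There is an admissible assignment of cost at most the cost of `σ` whose support is a forest.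
PROOF. The functions `D → F` are a finite type (`classical`). Let `c₀` be the minimal cost of the
admissible ones (`Finset.exists_min_image`), and `τ` one with cost `c₀` and maximal
`en (mt S u ω τ)` (`Finset.exists_max_image`). Suppose that `sup S u ω τ` is not sparse.
`exists_rot` (Helper82/CKM/Rot.lean) gives `ψ ≠ 0` with values in `{-1, 0, 1}`, support in
`sup`, zero sums. As `mt ≥ 0` (`mt_nonneg`) and integral, `mt ≥ 1` on the support of `ψ`, so
`0 ≤ mt + ψ` and `0 ≤ mt - ψ`; if `ψ a s ≠ 0` then `mt a s ≠ 0`, so `s ∈ S` (`mt_col`: the column is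
`0` outside of `S`). `mt_move` for `ψ` and `-ψ`: both costs are at least `c₀`, so the linear term is
`0` and both are minimal. `en (mt + ψ) + en (mt - ψ) = 2 en mt + 2 en ψ > 2 en mt`: contradiction. -/
theorem exists_extreme (u : ℕ) (c : F → F → ℝ) (S : Finset F) (ω σ : D → F) (h : Adm S u σ) :
    ∃ τ : D → F, Adm S u τ ∧ cc c ω τ ≤ cc c ω σ ∧ Sparse (sup S u ω τ) := by
  classical
  obtain ⟨A, hA⟩ : ∃ A : Finset (D → F), ∀ τ, τ ∈ A ↔ Adm S u τ :=
    ⟨Finset.univ.filter fun τ => Adm S u τ, fun τ => by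
      rw [Finset.mem_filter]; exact and_iff_right (Finset.mem_univ τ)⟩
  obtain ⟨τ₀, h0, hmin⟩ := A.exists_min_image (cc c ω) ⟨σ, (hA σ).2 h⟩
  obtain ⟨E, hE⟩ : ∃ E : Finset (D → F), ∀ τ, τ ∈ E ↔ Adm S u τ ∧ cc c ω τ = cc c ω τ₀ :=
    ⟨A.filter fun τ => cc c ω τ = cc c ω τ₀, fun τ => by rw [Finset.mem_filter, hA]⟩
  obtain ⟨τ, h1, hmax⟩ := E.exists_max_image (fun τ => en (mt S u ω τ))
    ⟨τ₀, (hE τ₀).2 ⟨(hA τ₀).1 h0, rfl⟩⟩
  obtain ⟨hadm, hc0⟩ := (hE τ).1 h1
  refine ⟨τ, hadm, by rw [hc0]; exact hmin σ ((hA σ).2 h), ?_⟩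
  by_contra hs
  obtain ⟨ψ, ⟨a₀, s₀, h2⟩, h3, h4, h5, h6⟩ := exists_rot hs
  have hsup : ∀ a s, ψ a s ≠ 0 → 1 ≤ mt S u ω τ a s := by
    intro a s hne
    have h7 := h3 a s hne
    rw [sup, Finset.mem_filter] at h7
    have h8 := mt_nonneg (ω := ω) hadm a s
    have h9 : mt S u ω τ a s ≠ 0 := h7.2
    omega
  have hS : ∀ a s, ψ a s ≠ 0 → s ∈ S := by
    intro a s hne
    by_contra hsS
    have h7 := mt_col (ω := ω) hadm s
    rw [if_neg hsS] at h7
    have h8 := (Finset.sum_eq_zero_iff_of_nonneg fun a _ => mt_nonneg (ω := ω) hadm a s).1 h7 a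
      (Finset.mem_univ a)
    have h9 := hsup a s hne
    omega
  have hpos : ∀ a s, 0 ≤ mt S u ω τ a s + ψ a s := by
    intro a s
    by_cases hne : ψ a s = 0
    · rw [hne, add_zero]
      exact mt_nonneg hadm a s
    · have h7 := hsup a s hne
      have h8 := (abs_le.1 (h4 a s)).1
      omega
  have hneg : ∀ a s, 0 ≤ mt S u ω τ a s + -ψ a s := by
    intro a s
    by_cases hne : ψ a s = 0
    · rw [hne, neg_zero, add_zero]
      exact mt_nonneg hadm a s
    · have h7 := hsup a s hne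
      have h8 := (abs_le.1 (h4 a s)).2
      omega
  obtain ⟨τ₁, a1, m1, c1⟩ := mt_move hadm c ψ hpos hS h5 h6
  obtain ⟨τ₂, a2, m2, c2⟩ := mt_move hadm c (fun a s => -ψ a s) hneg
    (fun a s hne => hS a s fun h0 => hne (by rw [h0, neg_zero]))
    (fun a => by rw [Finset.sum_neg_distrib, h5 a, neg_zero])
    (fun s => by rw [Finset.sum_neg_distrib, h6 s, neg_zero])
  have hlin : ∑ o, ∑ s, ((-ψ (some o) s : ℤ) : ℝ) * c o s =
      -∑ o, ∑ s, (ψ (some o) s : ℝ) * c o s := by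
    rw [← Finset.sum_neg_distrib]
    refine Finset.sum_congr rfl fun o _ => ?_
    rw [← Finset.sum_neg_distrib]
    refine Finset.sum_congr rfl fun s _ => ?_
    push_cast
    ring
  rw [hlin] at c2
  have b1 := hmin τ₁ ((hA τ₁).2 a1)
  have b2 := hmin τ₂ ((hA τ₂).2 a2)
  have e1 : τ₁ ∈ E := (hE τ₁).2 ⟨a1, by linarith⟩
  have e2 : τ₂ ∈ E := (hE τ₂).2 ⟨a2, by linarith⟩
  have g1 := hmax τ₁ e1
  have g2 := hmax τ₂ e2
  have hen : en (mt S u ω τ₁) + en (mt S u ω τ₂) = 2 * en (mt S u ω τ) + 2 * en ψ := by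
    unfold en
    rw [Finset.mul_sum, Finset.mul_sum, ← Finset.sum_add_distrib, ← Finset.sum_add_distrib]
    refine Finset.sum_congr rfl fun a _ => ?_
    rw [Finset.mul_sum, Finset.mul_sum, ← Finset.sum_add_distrib, ← Finset.sum_add_distrib]
    refine Finset.sum_congr rfl fun s _ => ?_
    rw [m1 a s, m2 a s]
    ring
  have hψ : 0 < en ψ := by
    unfold en
    refine Finset.sum_pos' (fun a _ => Finset.sum_nonneg fun s _ => sq_nonneg _)
      ⟨a₀, Finset.mem_univ _, ?_⟩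
    exact Finset.sum_pos' (fun s _ => sq_nonneg _) ⟨s₀, Finset.mem_univ _, by positivity⟩
  omega

end

end Pool.Agent.LSC
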