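import Pool.Agent.LSC.Con1

/-!
# Consolidation: counting, and the consolidation lemma
-/

set_option autoImplicit false

namespace Pool.Agent.LSC

open Pool.Agent.Helper82.CKM

section

variable {D F : Type} [Fintype D] [Fintype F]

open Classical in
/-- If the support is a forest then at most as many facilities are used as there are clusters.
PROOF. Let `T := image τ`, `O := image ω`. For `s ∈ T` let `nb s` be the set of the `a : Option F`
with `mt a s ≠ 0`; it is contained in `{none} ∪ some '' O` and not empty. Let `A` be the set of the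
`s ∈ T` with `(nb s).card = 1`. For `s ∈ A`: there is a client `j` with `τ j = s`, so
`nb s = {some (ω j)}`, and `mt_col` says that the fibre of `τ` over `s` has `u` elements, all in the
cluster `o s := ω j`, which has at most `u` elements (`hω`); so the cluster `o s` is the fibre over `s`, and
`mt (some (o s)) s' = 0` for all `s' ≠ s`. So `o` is injective on `A`; let `O' := O \ o '' A`, `O'.card = O.card - A.card`.
If `T = A` then `T.card = A.card ≤ O.card`. Otherwise let `E'` be the set of the `(a, s)` in the support with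
`s ∈ T \ A`: `E'.card ≥ 2 (T \ A).card` (`nb s` has at least two elements), not empty; the
image of `Prod.snd` is in `T \ A`, the image of `Prod.fst` is in `{none} ∪ some '' O'`. `Sparse`:
`2 (T \ A).card ≤ E'.card < (T \ A).card + 1 + O'.card`, so `(T \ A).card ≤ O'.card` and
`T.card ≤ O.card`. -/
theorem card_of_sparse (u : ℕ) (S : Finset F) (ω τ : D → F) (h : Adm S u τ)
    (hω : ∀ i, (Finset.univ.filter fun j => ω j = i).card ≤ u) (hs : Sparse (sup S u ω τ)) :
    (Finset.univ.image τ).card ≤ (Finset.univ.image ω).card := by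
  rcases isEmpty_or_nonempty D with hD | hD
  · simp
  set T := Finset.univ.image τ with hT
  set O := Finset.univ.image ω with hO
  have hex : ∀ s ∈ T, ∃ j, τ j = s := by
    intro s hs
    obtain ⟨j, _, hj⟩ := Finset.mem_image.1 hs
    exact ⟨j, hj⟩
  choose! r hr using hex
  set nb : F → Finset (Option F) := fun s => Finset.univ.filter fun a => mt S u ω τ a s ≠ 0
    with hnb
  have hpos : ∀ j, mt S u ω τ (some (ω j)) (τ j) ≠ 0 := by
    intro j
    simp only [mt]
    intro h0
    have h1 : (Finset.univ.filter fun i => ω i = ω j ∧ τ i = τ j).card = 0 := by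
      exact_mod_cast h0
    rw [Finset.card_eq_zero] at h1
    have h2 : j ∈ (Finset.univ.filter fun i => ω i = ω j ∧ τ i = τ j) :=
      Finset.mem_filter.2 ⟨Finset.mem_univ _, rfl, rfl⟩
    rw [h1] at h2
    exact absurd h2 (Finset.notMem_empty _)
  have hpos' : ∀ o s, mt S u ω τ (some o) s ≠ 0 → ∃ j, ω j = o ∧ τ j = s := by
    intro o s hne
    by_contra hcon
    push Not at hcon
    apply hne
    simp only [mt]
    have h1 : (Finset.univ.filter fun j => ω j = o ∧ τ j = s) = ∅ := by
      rw [Finset.eq_empty_iff_forall_notMem]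
      intro j hj
      exact hcon j (Finset.mem_filter.1 hj).2.1 (Finset.mem_filter.1 hj).2.2
    rw [h1, Finset.card_empty, Nat.cast_zero]
  have hnbT : ∀ s ∈ T, some (ω (r s)) ∈ nb s := by
    intro s hs
    have h1 := hpos (r s)
    rw [hr s hs] at h1
    exact Finset.mem_filter.2 ⟨Finset.mem_univ _, h1⟩
  set A := T.filter fun s => (nb s).card = 1 with hA
  -- the clusters of the columns of `A`
  have hfib : ∀ s ∈ A, ∀ j, ω j = ω (r s) → τ j = s := by
    intro s hsA j hj
    obtain ⟨hsT, hc⟩ := Finset.mem_filter.1 hsA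
    obtain ⟨a, ha⟩ := Finset.card_eq_one.1 hc
    have hmem := hnbT s hsT
    rw [ha, Finset.mem_singleton] at hmem
    have hS : s ∈ S := by
      rw [← hr s hsT]
      exact h.1 _
    have hcol := mt_col (ω := ω) h s
    rw [if_pos hS] at hcol
    have h1 : ∑ a', mt S u ω τ a' s = mt S u ω τ (some (ω (r s))) s := by
      refine Finset.sum_eq_single_of_mem _ (Finset.mem_univ _) ?_
      intro b _ hb
      by_contra hne
      have : b ∈ nb s := Finset.mem_filter.2 ⟨Finset.mem_univ _, hne⟩
      rw [ha, Finset.mem_singleton, ← hmem] at this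
      exact hb this
    rw [h1] at hcol
    simp only [mt] at hcol
    have h2 : (Finset.univ.filter fun j => ω j = ω (r s) ∧ τ j = s).card = u := by
      exact_mod_cast hcol
    have h3 : (Finset.univ.filter fun j => ω j = ω (r s) ∧ τ j = s) =
        Finset.univ.filter fun j => ω j = ω (r s) := by
      refine Finset.eq_of_subset_of_card_le ?_ ?_
      · intro i hi
        exact Finset.mem_filter.2 ⟨Finset.mem_univ _, (Finset.mem_filter.1 hi).2.1⟩
      · rw [h2]
        exact hω _
    have h4 : j ∈ Finset.univ.filter fun j => ω j = ω (r s) :=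
      Finset.mem_filter.2 ⟨Finset.mem_univ _, hj⟩
    rw [← h3] at h4
    exact (Finset.mem_filter.1 h4).2.2
  have hAT : A ⊆ T := Finset.filter_subset _ _
  have hinj : Set.InjOn (fun s => ω (r s)) (A : Set F) := by
    intro s hs s' hs' he
    have h1 := hfib s hs (r s') he.symm
    rw [hr s' (hAT hs')] at h1
    exact h1.symm
  have hAO : A.image (fun s => ω (r s)) ⊆ O := by
    intro o ho
    obtain ⟨s, _, rfl⟩ := Finset.mem_image.1 ho
    exact Finset.mem_image_of_mem _ (Finset.mem_univ _)
  have hcA : (A.image fun s => ω (r s)).card = A.card := Finset.card_image_of_injOn hinj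
  have hAle : A.card ≤ O.card := by
    rw [← hcA]
    exact Finset.card_le_card hAO
  have hcT : (T \ A).card + A.card = T.card := Finset.card_sdiff_add_card_eq_card hAT
  rcases (T \ A).eq_empty_or_nonempty with hempty | hne
  · rw [hempty, Finset.card_empty] at hcT
    omega
  set O' := O \ A.image fun s => ω (r s) with hO'
  have hcO : O'.card + A.card = O.card := by
    rw [← hcA]
    exact Finset.card_sdiff_add_card_eq_card hAO
  set E' := (sup S u ω τ).filter fun x => x.2 ∈ T \ A with hE'
  have hEcard : E'.card = ∑ s ∈ T \ A, (nb s).card := by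
    rw [Finset.card_eq_sum_card_fiberwise (f := Prod.snd) (t := T \ A)]
    · refine Finset.sum_congr rfl fun s hs => ?_
      refine Finset.card_bij (fun x _ => x.1) ?_ ?_ ?_
      · intro x hx
        rw [Finset.mem_filter] at hx
        have h1 := (Finset.mem_filter.1 (Finset.mem_filter.1 hx.1).1).2
        rw [hx.2] at h1
        exact Finset.mem_filter.2 ⟨Finset.mem_univ _, h1⟩
      · intro x hx y hy hxy
        rw [Finset.mem_filter] at hx hy
        exact Prod.ext hxy (hx.2.trans hy.2.symm)
      · intro a ha
        refine ⟨(a, s), ?_, rfl⟩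
        rw [Finset.mem_filter]
        refine ⟨Finset.mem_filter.2 ⟨Finset.mem_filter.2 ⟨Finset.mem_univ _, ?_⟩, hs⟩, rfl⟩
        exact (Finset.mem_filter.1 ha).2
    · intro x hx
      exact (Finset.mem_filter.1 hx).2
  have hnb2 : ∀ s ∈ T \ A, 2 ≤ (nb s).card := by
    intro s hs
    obtain ⟨hsT, hsA⟩ := Finset.mem_sdiff.1 hs
    have h1 : (nb s).card ≠ 1 := fun hc => hsA (Finset.mem_filter.2 ⟨hsT, hc⟩)
    have h2 : 0 < (nb s).card := Finset.card_pos.2 ⟨_, hnbT s hsT⟩
    omega
  have hE2 : 2 * (T \ A).card ≤ E'.card := by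
    rw [hEcard, mul_comm, ← smul_eq_mul]
    exact Finset.card_nsmul_le_sum _ _ _ hnb2
  have hEne : E'.Nonempty := by
    rw [← Finset.card_pos]
    have := Finset.card_pos.2 hne
    omega
  have hfst : E'.image Prod.fst ⊆ insert none (O'.image some) := by
    intro a ha
    obtain ⟨x, hx, rfl⟩ := Finset.mem_image.1 ha
    obtain ⟨hx1, hx2⟩ := Finset.mem_filter.1 hx
    have hx3 := (Finset.mem_filter.1 hx1).2
    obtain ⟨a, s⟩ := x
    cases a with
    | none => exact Finset.mem_insert_self _ _
    | some o =>
      refine Finset.mem_insert_of_mem (Finset.mem_image_of_mem _ ?_)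
      obtain ⟨j, hj1, hj2⟩ := hpos' o s hx3
      refine Finset.mem_sdiff.2 ⟨?_, ?_⟩
      · rw [← hj1]
        exact Finset.mem_image_of_mem _ (Finset.mem_univ _)
      · intro ho
        obtain ⟨s1, hs1, ho1⟩ := Finset.mem_image.1 ho
        have h1 := hfib s1 hs1 j (hj1.trans ho1.symm)
        rw [hj2] at h1
        rw [← h1] at hs1
        exact (Finset.mem_sdiff.1 hx2).2 hs1
  have hsnd : E'.image Prod.snd ⊆ T \ A := by
    intro s hs
    obtain ⟨x, hx, rfl⟩ := Finset.mem_image.1 hs
    exact (Finset.mem_filter.1 hx).2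
  have h4 := Finset.card_insert_le (none : Option F) (O'.image some)
  have h5 : (O'.image some).card ≤ O'.card := Finset.card_image_le
  generalize insert none (O'.image some) = X at hfst h4
  generalize T \ A = Y at *
  have hf1 : ∀ x ∈ E', x.1 ∈ X := fun x hx => hfst (Finset.mem_image_of_mem _ hx)
  have hf2 : ∀ x ∈ E', x.2 ∈ Y := fun x hx => hsnd (Finset.mem_image_of_mem _ hx)
  have h2 : ∀ i1 : DecidableEq (Option F), (@Finset.image _ _ i1 Prod.fst E').card ≤ X.card := by
    intro i1
    refine Finset.card_le_card fun a ha => ?_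
    obtain ⟨x, hx, rfl⟩ := (@Finset.mem_image _ _ i1 _ _ _).1 ha
    exact hf1 x hx
  have h3 : ∀ i1 : DecidableEq F, (@Finset.image _ _ i1 Prod.snd E').card ≤ Y.card := by
    intro i1
    refine Finset.card_le_card fun a ha => ?_
    obtain ⟨x, hx, rfl⟩ := (@Finset.mem_image _ _ i1 _ _ _).1 ha
    exact hf2 x hx
  have h1 : E'.card < X.card + Y.card :=
    lt_of_lt_of_le (hs E' (Finset.filter_subset _ _) hEne) (add_le_add (h2 _) (h3 _))
  omega

open Classical in
/-- **The consolidation lemma.** Clusters with at most `u` clients each, facilities of capacity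
`u`, arbitrary costs that depend only on the cluster and the facility: any assignment can be
replaced by one that is not more expensive and uses at most as many facilities as there are
clusters. -/
theorem consolidate (u : ℕ) (c : F → F → ℝ) (S : Finset F) (ω σ : D → F) (h : Adm S u σ)
    (hω : ∀ i, (Finset.univ.filter fun j => ω j = i).card ≤ u) :
    ∃ τ : D → F, Adm S u τ ∧ (Finset.univ.image τ).card ≤ (Finset.univ.image ω).card ∧
      ∑ j, c (ω j) (τ j) ≤ ∑ j, c (ω j) (σ j) := by
  obtain ⟨τ, h1, h2, h3⟩ := exists_extreme u c S ω σ h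
  exact ⟨τ, h1, card_of_sparse u S ω τ h1 hω h3, h2⟩

end

end Pool.Agent.LSC
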