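import Pool.Agent.Helper82.CKM.Rot
import Pool.Agent.Helper82.CKM.Plan
import Pool.Agent.Helper82.CKM.Defs

/-!
# Local search for capacitated k-median: definitions and slots
-/

/-
HOW TO WORK ON A FILE OF THIS DIRECTORY (captain helper5): replace the sorrys of your file, change no statement, name
or import (extra imports without cycles are fine). Auxiliary results: private, or with a name that starts with the name
of the file. Imported files may be used although they still have sorrys.

CONVENTIONS. Instances and solutions as in Helper82/CKM/Defs.lean. A slot is a pair in I.F × Fin u; if all capacities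
are equal to u then a solution is the same as an injective map of the clients to slots.
-/

set_option autoImplicit false

namespace Pool.Agent.LSC

open Pool.Agent.Helper82.CKM

open Classical in
/-- `s` is a local optimum: it opens at most `K` facilities, no solution that opens only
facilities of `s` is cheaper, and no solution with at most `K` facilities that opens at most `p`
facilities outside of `s` is cheaper by more than the factor `1 - η`. -/
structure LocOpt {I : Inst} (K p : ℕ) (η : ℝ) (s : Sol I) : Prop where
  /-- the number of facilities -/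
  size : s.size ≤ K
  /-- the assignment is optimal for the open facilities -/
  own : ∀ t : Sol I, t.S ⊆ s.S → s.cost ≤ t.cost
  /-- no swap of at most `p` facilities is much better -/
  swap : ∀ t : Sol I, t.size ≤ K → (t.S \ s.S).card ≤ p → (1 - η) * s.cost ≤ t.cost

/-- The cost of one client. -/
def cs {I : Inst} (s : Sol I) (j : I.D) : ℝ := I.d (Sum.inr j) (Sum.inl (s.σ j))

theorem cost_eq {I : Inst} (s : Sol I) : s.cost = ∑ j, cs s j := rfl

theorem cs_nonneg {I : Inst} (s : Sol I) (j : I.D) : 0 ≤ cs s j := I.nonneg _ _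

/-- PROOF. `I.tri`, `I.symm`. -/
theorem dist_le {I : Inst} (s o : Sol I) (j : I.D) :
    I.d (Sum.inl (o.σ j)) (Sum.inl (s.σ j)) ≤ cs s j + cs o j := by
  have h1 := I.tri (Sum.inl (o.σ j)) (Sum.inr j) (Sum.inl (s.σ j))
  rw [I.symm (Sum.inl (o.σ j)) (Sum.inr j)] at h1
  unfold cs
  linarith

section

variable {I : Inst} {u : ℕ}

open Classical in
/-- The fibres of the assignment of a solution. PROOF. `s.cap` if `i ∈ s.S`; otherwise the fibre is
empty (`s.mem`). -/
theorem fib_le (hU : ∀ i, I.U i = u) (s : Sol I) (i : I.F) :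
    (Finset.univ.filter fun j => s.σ j = i).card ≤ u := by
  by_cases h : i ∈ s.S
  · exact (s.cap i h).trans_eq (hU i)
  · rw [Finset.filter_eq_empty_iff.2, Finset.card_empty]
    · exact Nat.zero_le _
    · intro j _ hj
      exact h (hj ▸ s.mem j)

open Classical in
/-- The solution of an assignment with small fibres. -/
def mkSol (hU : ∀ i, I.U i = u) (S : Finset I.F) (σ : I.D → I.F) (hS : ∀ j, σ j ∈ S)
    (hσ : ∀ i, (Finset.univ.filter fun j => σ j = i).card ≤ u) : Sol I where
  S := S
  σ := σ
  mem := hS
  cap := fun i _ => by rw [hU i]; exact hσ i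

/-- A solution as an injection to the slots.
PROOF. For every `i` the fibre of `s.σ` has at most `u` elements (`fib_le`), so it embeds in
`Fin u`. -/
theorem exists_slot (hU : ∀ i, I.U i = u) (s : Sol I) :
    ∃ b : I.D → I.F × Fin u, Function.Injective b ∧ ∀ j, (b j).1 = s.σ j := by
  classical
  have he : ∀ i : I.F, Nonempty ({j : I.D // s.σ j = i} ↪ Fin u) := by
    intro i
    apply Function.Embedding.nonempty_of_card_le
    rw [Fintype.card_subtype, Fintype.card_fin]
    convert fib_le hU s i
  have e := fun i => Classical.choice (he i)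
  have key : ∀ (i i' : I.F) (h : i = i') (j j' : I.D) (hj : s.σ j = i) (hj' : s.σ j' = i'),
      e i ⟨j, hj⟩ = e i' ⟨j', hj'⟩ → j = j' := by
    rintro i i' rfl j j' hj hj' h
    exact congrArg Subtype.val ((e i).injective h)
  refine ⟨fun j => (s.σ j, e (s.σ j) ⟨j, rfl⟩), fun j j' h => ?_, fun j => rfl⟩
  exact key _ _ (congrArg Prod.fst h) j j' rfl rfl (congrArg Prod.snd h)

/-- PROOF. The fibre over `i` embeds in `Fin u` by `j ↦ (b j).2`. -/
theorem sol_of_slot (hU : ∀ i, I.U i = u) (S : Finset I.F) (b : I.D → I.F × Fin u)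
    (hb : Function.Injective b) (hS : ∀ j, (b j).1 ∈ S) :
    ∃ t : Sol I, t.S = S ∧ ∀ j, t.σ j = (b j).1 := by
  classical
  refine ⟨mkSol hU S (fun j => (b j).1) hS fun i => ?_, rfl, fun j => rfl⟩
  have h := Finset.card_le_card_of_injOn (s := Finset.univ.filter fun j => (b j).1 = i)
    (t := (Finset.univ : Finset (Fin u))) (fun j => (b j).2) (fun j _ => Finset.mem_univ _) (by
      intro j hj j' hj' hjj
      rw [Finset.mem_coe, Finset.mem_filter] at hj hj'
      exact hb (Prod.ext (hj.2.trans hj'.2.symm) hjj))
  rw [Finset.card_univ, Fintype.card_fin] at h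
  convert h

/-- An optimal solution with given open facilities.
PROOF. Solutions with `v.S ⊆ W` are determined up to `S` by their assignment, an element of the
finite set `I.D → I.F`; take one of minimal cost and enlarge the open set to `W`. -/
theorem exists_best (hU : ∀ i, I.U i = u) (W : Finset I.F) (v₀ : Sol I) (h : v₀.S ⊆ W) :
    ∃ w : Sol I, w.S = W ∧ ∀ v : Sol I, v.S ⊆ W → w.cost ≤ v.cost := by
  classical
  let A : Set (I.D → I.F) := {σ | (∀ j, σ j ∈ W) ∧
    ∀ i, (Finset.univ.filter fun j => σ j = i).card ≤ u}
  have hA : ∀ v : Sol I, v.S ⊆ W → v.σ ∈ A := fun v hv =>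
    ⟨fun j => hv (v.mem j), fun i => by convert fib_le hU v i⟩
  obtain ⟨σ, hσ, hmin⟩ := Set.exists_min_image A
    (fun σ => ∑ j, I.d (Sum.inr j) (Sum.inl (σ j))) (Set.toFinite A) ⟨v₀.σ, hA v₀ h⟩
  exact ⟨mkSol hU W σ hσ.1 (fun i => by convert hσ.2 i), rfl, fun v hv => hmin v.σ (hA v hv)⟩

end

end Pool.Agent.LSC
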