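import Pool.Agent.LSC.Li

/-!
# The path instance: solutions that open all pairs
-/

set_option autoImplicit false

namespace Pool.Agent.LSC

open Pool.Agent.Helper82.CKM

private theorem Lo2_abs (N a b : ℕ) :
    ((((Finset.range N).filter fun c => ¬ (a ≤ c ↔ b ≤ c)).card : ℕ) : ℤ) ≤
      |(a : ℤ) - (b : ℤ)| := by
  have h : ((Finset.range N).filter fun c => ¬ (a ≤ c ↔ b ≤ c)) ⊆
      Finset.Ico (min a b) (max a b) := by
    intro c hc
    have h1 := (Finset.mem_filter.1 hc).2
    rw [Finset.mem_Ico]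
    omega
  have h2 := Finset.card_le_card h
  rw [Nat.card_Ico] at h2
  rcases le_total a b with h1 | h1
  · rw [min_eq_left h1, max_eq_right h1] at h2
    rw [abs_sub_comm, abs_of_nonneg (by omega)]
    omega
  · rw [min_eq_right h1, max_eq_left h1] at h2
    rw [abs_of_nonneg (by omega)]
    omega

/-- The parity of the cuts.
PROOF. `2 n = ∑ i ∈ K, #(fibre of i)` and all fibres have at most `2` elements, `K.card ≤ n`: all
fibres of elements of `K` have exactly `2` elements (`Finset.sum_eq_sum_iff_of_le`). For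
`c < 2 n`: `#{j | 2 ((j + 1) / 2) ≤ c} = 2 (c / 2) + 1` is odd, `#{j | τ j ≤ c}` is
`2 #{i ∈ K | i ≤ c}`, even. So there is a `j` for which exactly one of `2 ((j + 1) / 2) ≤ c` and
`τ j ≤ c` holds. For numbers `a, b ≤ 2 n` the absolute value `|a - b|` is the number of the
`c < 2 n` for which exactly one of `a ≤ c`, `b ≤ c` holds. Exchange the sums
(`Finset.sum_comm`). -/
theorem path_cut (n : ℕ) (τ : Fin (2 * n) → Fin (2 * n + 1)) (K : Finset (Fin (2 * n + 1)))
    (hK : K.card ≤ n) (hτ : ∀ j, τ j ∈ K)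
    (hf : ∀ i, (Finset.univ.filter fun j => τ j = i).card ≤ 2) :
    (2 * n : ℤ) ≤ ∑ j : Fin (2 * n), |((2 * ((j.val + 1) / 2) : ℕ) : ℤ) - ((τ j).val : ℤ)| := by
  -- all fibres have two elements
  have h1 : ∑ i ∈ K, (Finset.univ.filter fun j => τ j = i).card = 2 * n := by
    have h := Finset.card_eq_sum_card_fiberwise (f := τ) (s := Finset.univ) (t := K)
      (fun j _ => hτ j)
    rw [Finset.card_univ, Fintype.card_fin] at h
    exact h.symm
  have h2 : ∑ i ∈ K, (Finset.univ.filter fun j => τ j = i).card = ∑ _i ∈ K, 2 := by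
    apply le_antisymm (Finset.sum_le_sum fun i _ => hf i)
    rw [h1, Finset.sum_const, smul_eq_mul]
    omega
  have h3 : ∀ i ∈ K, (Finset.univ.filter fun j => τ j = i).card = 2 :=
    (Finset.sum_eq_sum_iff_of_le fun i _ => hf i).1 h2
  -- every cut is crossed
  have h4 : ∀ c, c < 2 * n → ∃ j : Fin (2 * n),
      ¬ (2 * ((j.val + 1) / 2) ≤ c ↔ (τ j).val ≤ c) := by
    intro c hc
    by_contra hcon
    have hall : ∀ j : Fin (2 * n), (2 * ((j.val + 1) / 2) ≤ c ↔ (τ j).val ≤ c) := by
      intro j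
      by_contra hj
      exact hcon ⟨j, hj⟩
    have e1 : (Finset.univ.filter fun j : Fin (2 * n) => (τ j).val ≤ c).card =
        2 * (c / 2) + 1 := by
      have e2 : (Finset.univ.filter fun j : Fin (2 * n) => (τ j).val ≤ c) =
          Finset.univ.filter fun j : Fin (2 * n) => j.val < 2 * (c / 2) + 1 := by
        ext j
        rw [Finset.mem_filter, Finset.mem_filter, ← hall j]
        constructor
        · rintro ⟨_, h⟩
          exact ⟨Finset.mem_univ _, by omega⟩
        · rintro ⟨_, h⟩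
          exact ⟨Finset.mem_univ _, by omega⟩
      rw [e2, Fin.card_filter_val_lt]
      omega
    have e3 : (Finset.univ.filter fun j : Fin (2 * n) => (τ j).val ≤ c).card =
        ∑ i ∈ K.filter (fun i => i.val ≤ c), 2 := by
      rw [Finset.card_eq_sum_card_fiberwise (f := τ)
        (s := Finset.univ.filter fun j : Fin (2 * n) => (τ j).val ≤ c)
        (t := K.filter fun i => i.val ≤ c) (by
          intro j hj
          have hj' := (Finset.mem_filter.1 (Finset.mem_coe.1 hj)).2
          exact Finset.mem_coe.2 (Finset.mem_filter.2 ⟨hτ j, hj'⟩))]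
      refine Finset.sum_congr rfl fun i hi => ?_
      obtain ⟨hi1, hi2⟩ := Finset.mem_filter.1 hi
      refine Eq.trans (congrArg Finset.card ?_) (h3 i hi1)
      ext j
      rw [Finset.mem_filter, Finset.mem_filter, Finset.mem_filter]
      constructor
      · rintro ⟨_, h⟩
        exact ⟨Finset.mem_univ _, h⟩
      · rintro ⟨_, h⟩
        exact ⟨⟨Finset.mem_univ _, by rw [h]; exact hi2⟩, h⟩
    rw [Finset.sum_const, smul_eq_mul] at e3
    omega
  -- double counting
  have h5 : (2 * n : ℤ) ≤ ∑ j : Fin (2 * n), ((((Finset.range (2 * n)).filter fun c =>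
      ¬ (2 * ((j.val + 1) / 2) ≤ c ↔ (τ j).val ≤ c)).card : ℕ) : ℤ) := by
    have e1 : 2 * n ≤ ∑ j : Fin (2 * n), ((Finset.range (2 * n)).filter fun c =>
        ¬ (2 * ((j.val + 1) / 2) ≤ c ↔ (τ j).val ≤ c)).card := by
      have e2 : ∑ j : Fin (2 * n), ((Finset.range (2 * n)).filter fun c =>
          ¬ (2 * ((j.val + 1) / 2) ≤ c ↔ (τ j).val ≤ c)).card =
          ∑ c ∈ Finset.range (2 * n), ∑ j : Fin (2 * n),
            if ¬ (2 * ((j.val + 1) / 2) ≤ c ↔ (τ j).val ≤ c) then 1 else 0 := by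
        rw [Finset.sum_comm]
        exact Finset.sum_congr rfl fun j _ => Finset.card_filter _ _
      rw [e2]
      calc 2 * n = ∑ _c ∈ Finset.range (2 * n), 1 := by
            rw [Finset.sum_const, Finset.card_range, smul_eq_mul, mul_one]
        _ ≤ _ := by
            refine Finset.sum_le_sum fun c hc => ?_
            obtain ⟨j, hj⟩ := h4 c (Finset.mem_range.1 hc)
            have e3 : (if ¬ (2 * ((j.val + 1) / 2) ≤ c ↔ (τ j).val ≤ c) then 1 else 0) = 1 :=
              if_pos hj
            exact e3.symm.le.trans (Finset.single_le_sum (f := fun j : Fin (2 * n) =>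
              if ¬ (2 * ((j.val + 1) / 2) ≤ c ↔ (τ j).val ≤ c) then 1 else 0)
              (fun i _ => Nat.zero_le _) (Finset.mem_univ j))
    exact_mod_cast e1
  refine h5.trans (Finset.sum_le_sum fun j _ => ?_)
  exact Lo2_abs (2 * n) (2 * ((j.val + 1) / 2)) (τ j).val

private theorem lo2_fib {I : Inst} {u : ℕ} (hU : ∀ i, I.U i = u) (t : Sol I) (i : I.F)
    (T : Finset I.D) (hT : ∀ j ∈ T, t.σ j = i) : T.card ≤ u := by
  classical
  refine le_trans (Finset.card_le_card ?_) (fib_le hU t i)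
  intro j hj
  rw [Finset.mem_filter]
  exact ⟨Finset.mem_univ _, hT j hj⟩

private theorem lo2_aux (n p r : ℕ) (S : Finset (Fin (2 * n + 1) ⊕ (Fin (r + 1) × Bool)))
    (σ : Fin (2 * n) ⊕ (Fin (r + 1) × Bool) → Fin (2 * n + 1) ⊕ (Fin (r + 1) × Bool))
    (hmem : ∀ j, σ j ∈ S)
    (hcap : ∀ i, ∀ T : Finset (Fin (2 * n) ⊕ (Fin (r + 1) × Bool)), (∀ j ∈ T, σ j = i) →
      T.card ≤ 2)
    (hall : ∀ z, Sum.inr z ∈ S) (hcard : S.card ≤ n + 2 * r + 2) :
    (2 * n : ℤ) ≤ zc n p r σ := by
  classical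
  by_cases h : ∃ j z, σ (Sum.inl j) = Sum.inr z
  · obtain ⟨j, z, hjz⟩ := h
    have h1 : |dy n p r (Sum.inl j) - fx n p r (σ (Sum.inl j))| ≤ zc n p r σ := by
      unfold zc
      exact Finset.single_le_sum (f := fun j => |dy n p r j - fx n p r (σ j)|)
        (fun i _ => abs_nonneg _) (Finset.mem_univ (Sum.inl j))
    refine le_trans ?_ h1
    rw [hjz]
    refine le_trans ?_ (le_abs_self _)
    show (2 * n : ℤ) ≤ ((2 * ((j.val + 1) / 2) : ℕ) : ℤ) -
      -(((z.1.val + 1) * (2 * n + 4 * p) + (if z.2 then 2 * p else 0) : ℕ) : ℤ)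
    have h2 : 2 * n ≤ 2 * ((j.val + 1) / 2) +
        ((z.1.val + 1) * (2 * n + 4 * p) + (if z.2 then 2 * p else 0)) := by
      have h3 : 1 * (2 * n + 4 * p) ≤ (z.1.val + 1) * (2 * n + 4 * p) :=
        Nat.mul_le_mul_right _ (by omega)
      omega
    have h4 : ((2 * n : ℕ) : ℤ) ≤ ((2 * ((j.val + 1) / 2) +
        ((z.1.val + 1) * (2 * n + 4 * p) + (if z.2 then 2 * p else 0)) : ℕ) : ℤ) :=
      Int.ofNat_le.2 h2
    rw [sub_neg_eq_add, ← Nat.cast_add]
    exact_mod_cast h4
  · push Not at h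
    have hτ : ∀ j, ∃ i, σ (Sum.inl j) = Sum.inl i := by
      intro j
      rcases hj : σ (Sum.inl j) with i | z
      · exact ⟨i, rfl⟩
      · exact absurd hj (h j z)
    choose τ hτ using hτ
    have hK : ((Finset.univ.filter fun i : Fin (2 * n + 1) =>
        (Sum.inl i : Fin (2 * n + 1) ⊕ (Fin (r + 1) × Bool)) ∈ S)).card ≤ n := by
      have h1 : (Finset.univ.filter fun i : Fin (2 * n + 1) =>
          (Sum.inl i : Fin (2 * n + 1) ⊕ (Fin (r + 1) × Bool)) ∈ S).disjSum
          (Finset.univ : Finset (Fin (r + 1) × Bool)) ⊆ S := by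
        intro x hx
        rw [Finset.mem_disjSum] at hx
        rcases hx with ⟨a, ha, rfl⟩ | ⟨b, _, rfl⟩
        · exact (Finset.mem_filter.1 ha).2
        · exact hall b
      have h2 := Finset.card_le_card h1
      rw [Finset.card_disjSum, Finset.card_univ, Fintype.card_prod, Fintype.card_fin,
        Fintype.card_bool] at h2
      omega
    have hcut := path_cut n τ _ hK (fun j => Finset.mem_filter.2 ⟨Finset.mem_univ _, by
      rw [← hτ j]; exact hmem _⟩) (fun i => by
        have h1 := hcap (Sum.inl i) ((Finset.univ.filter fun j => τ j = i).map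
          Function.Embedding.inl) (fun x hx => by
            rw [Finset.mem_map] at hx
            obtain ⟨j, hj, rfl⟩ := hx
            show σ (Sum.inl j) = Sum.inl i
            rw [hτ j, (Finset.mem_filter.1 hj).2])
        rwa [Finset.card_map] at h1)
    refine hcut.trans ?_
    unfold zc
    rw [Fintype.sum_sum_type]
    have h5 : 0 ≤ ∑ z : Fin (r + 1) × Bool,
        |dy n p r (Sum.inr z) - fx n p r (σ (Sum.inr z))| :=
      Finset.sum_nonneg fun _ _ => abs_nonneg _
    have h6 : ∑ j : Fin (2 * n), |((2 * ((j.val + 1) / 2) : ℕ) : ℤ) - ((τ j).val : ℤ)| =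
        ∑ j : Fin (2 * n), |dy n p r (Sum.inl j) - fx n p r (σ (Sum.inl j))| := by
      refine Finset.sum_congr rfl fun j _ => ?_
      rw [hτ j]
      rfl
    rw [h6]
    linarith

/-- PROOF. If some client `inl j` is assigned to some `inr z`, then it pays at least
`2 n + 4 p`. Otherwise `t.σ (inl j) = inl (τ j)`; `K := {i | inl i ∈ t.S}` has at most `n` elements
since `t.S` contains the `2 (r + 1)` elements `inr z`. `path_cut` (drop the clients `inr z`:
nonnegative). Fibres: `t.cap`, `Df.fib_le`. -/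
theorem path_all {n p r : ℕ} (t : Sol (pathInst n p r))
    (hall : ∀ z : Fin (r + 1) × Bool,
      (Sum.inr z : Fin (2 * n + 1) ⊕ (Fin (r + 1) × Bool)) ∈ t.S)
    (hcard : t.size ≤ n + 2 * r + 2) : (2 * n : ℤ) ≤ zc n p r t.σ := by
  refine lo2_aux n p r t.S t.σ t.mem ?_ hall hcard
  intro i T hT
  exact lo2_fib (u := 2) (fun _ => rfl) t i T hT

end Pool.Agent.LSC
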