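import Pool.Agent.LSC.Lo1
import Pool.Agent.LSC.Lo2

/-!
# The path instance: the lower bound
-/

set_option autoImplicit false

namespace Pool.Agent.LSC

open Pool.Agent.Helper82.CKM

private lemma path_miss_far {n p r : ℕ} (z : Fin (r + 1) × Bool)
    (f : Fin (2 * n + 1) ⊕ (Fin (r + 1) × Bool)) (hf : f ≠ Sum.inr z) :
    (2 * p : ℤ) ≤ |dy n p r (Sum.inr z) - fx n p r f| := by
  obtain ⟨a, b⟩ := z
  rcases f with i | ⟨a', b'⟩
  · have h1 : (0 : ℤ) ≤ (i.val : ℤ) := Int.natCast_nonneg _
    have h2 : dy n p r (Sum.inr (a, b)) ≤ -(2 * p : ℤ) := by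
      simp only [dy, fx]
      have h3 : 2 * p ≤ (a.val + 1) * (2 * n + 4 * p) + (if b then 2 * p else 0) := by
        nlinarith [Nat.zero_le (if b then 2 * p else 0), Nat.zero_le (a.val * (2 * n + 4 * p))]
      have h4 : ((2 * p : ℕ) : ℤ) ≤
          (((a.val + 1) * (2 * n + 4 * p) + (if b then 2 * p else 0) : ℕ) : ℤ) := by
        exact_mod_cast h3
      push_cast at h4 ⊢
      linarith
    have h3 : fx n p r (Sum.inl i) = (i.val : ℤ) := rfl
    rw [h3, abs_sub_comm]
    refine le_trans ?_ (le_abs_self _)
    linarith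
  · simp only [dy, fx]
    have hb : (if b then 2 * p else 0) ≤ 2 * p := by split_ifs <;> omega
    have hb' : (if b' then 2 * p else 0) ≤ 2 * p := by split_ifs <;> omega
    rcases Nat.lt_trichotomy a.val a'.val with h | h | h
    · have h3 : (a.val + 1) * (2 * n + 4 * p) + (2 * n + 4 * p) ≤
          (a'.val + 1) * (2 * n + 4 * p) := by
        nlinarith
      generalize (a.val + 1) * (2 * n + 4 * p) = A at *
      generalize (a'.val + 1) * (2 * n + 4 * p) = A' at *
      generalize (if b then 2 * p else 0) = B at *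
      generalize (if b' then 2 * p else 0) = B' at *
      refine le_trans ?_ (le_abs_self _)
      push_cast
      omega
    · have hbb : b ≠ b' := by
        rintro rfl
        apply hf
        rw [Fin.ext h]
      rw [h]
      generalize (a'.val + 1) * (2 * n + 4 * p) = A' at *
      cases b <;> cases b'
      · exact absurd rfl hbb
      · simp only [Bool.false_eq_true, if_false, if_true]
        refine le_trans ?_ (le_abs_self _)
        push_cast
        omega
      · simp only [Bool.false_eq_true, if_false, if_true]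
        refine le_trans ?_ (neg_le_abs _)
        push_cast
        omega
      · exact absurd rfl hbb
    · have h3 : (a'.val + 1) * (2 * n + 4 * p) + (2 * n + 4 * p) ≤
          (a.val + 1) * (2 * n + 4 * p) := by
        nlinarith
      generalize (a.val + 1) * (2 * n + 4 * p) = A at *
      generalize (a'.val + 1) * (2 * n + 4 * p) = A' at *
      generalize (if b then 2 * p else 0) = B at *
      generalize (if b' then 2 * p else 0) = B' at *
      refine le_trans ?_ (neg_le_abs _)
      push_cast
      omega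

private lemma path_miss_even {n p r : ℕ} (j : Fin (2 * n))
    (f : Fin (2 * n + 1) ⊕ (Fin (r + 1) × Bool))
    (h : dy n p r (Sum.inl j) = fx n p r f) : f ∉ sS n r := by
  have hj := j.isLt
  rcases f with i | ⟨a, b⟩
  · simp only [dy, fx] at h
    simp only [sS, Finset.mem_filter, Finset.mem_univ, true_and, Sum.elim_inl,
      decide_eq_true_eq]
    omega
  · exfalso
    simp only [dy, fx] at h
    have h3 : 1 ≤ (a.val + 1) * (2 * n + 4 * p) + (if b then 2 * p else 0) := by
      have : 1 ≤ (a.val + 1) * (2 * n + 4 * p) := by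
        have h4 : 1 ≤ 2 * n + 4 * p := by omega
        nlinarith [Nat.zero_le (a.val * (2 * n + 4 * p))]
      omega
    generalize (a.val + 1) * (2 * n + 4 * p) + (if b then 2 * p else 0) = A at *
    omega

open Classical in
/-- PROOF. The client `inr z` is assigned to another point, which has distance at least `2 p` (the
partner: `2 p`; other pairs: at least `2 n + 2 p`; the path: at least `2 n + 4 p`). The clients
`inl j` with cost `0` are assigned to a facility `inl i` with `i` even (positions of `inr` are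
negative or, for `n = p = 0`, the claim is trivial: then `2 n = 0`), which is in `t.S \ sS`: at most `p` facilities, at most
`2` clients each (`t.cap`). The other ones pay at least `1`:
total at least `(2 n - 2 p) + 2 p`. -/
theorem path_miss {n p r : ℕ} (t : Sol (pathInst n p r)) (z : Fin (r + 1) × Bool)
    (hz : (Sum.inr z : Fin (2 * n + 1) ⊕ (Fin (r + 1) × Bool)) ∉ t.S)
    (hp : (t.S \ (sS n r : Finset (pathInst n p r).F)).card ≤ p) :
    (2 * n : ℤ) ≤ zc n p r t.σ := by
  have hfib : ∀ i : (pathInst n p r).F, (Finset.univ.filter fun j => t.σ j = i).card ≤ 2 :=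
    fib_le (fun _ => rfl) t
  have hmem : ∀ j, t.σ j ∈ t.S := t.mem
  have h1 : (2 * p : ℤ) ≤ ∑ y : Fin (r + 1) × Bool,
      |dy n p r (Sum.inr y) - fx n p r (t.σ (Sum.inr y))| := by
    refine le_trans ?_ (Finset.single_le_sum (f := fun y : Fin (r + 1) × Bool =>
      |dy n p r (Sum.inr y) - fx n p r (t.σ (Sum.inr y))|) (fun _ _ => abs_nonneg _)
      (Finset.mem_univ z))
    have hne : ∀ f, t.σ (Sum.inr z) = f → f ≠ Sum.inr z := by
      rintro f hf rfl
      exact hz (by rw [← hf]; exact hmem _)
    have := hne _ rfl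
    exact path_miss_far z (t.σ (Sum.inr z)) this
  have h2 : (2 * n : ℤ) - 2 * p ≤ ∑ j : Fin (2 * n),
      |dy n p r (Sum.inl j) - fx n p r (t.σ (Sum.inl j))| := by
    set Z : Finset (Fin (2 * n)) := Finset.univ.filter fun j =>
      dy n p r (Sum.inl j) = fx n p r (t.σ (Sum.inl j)) with hZ
    have hZc : Z.card ≤ 2 * (t.S \ (sS n r : Finset (pathInst n p r).F)).card := by
      refine Finset.card_le_mul_card_image_of_maps_to
        (f := fun j : Fin (2 * n) => t.σ (Sum.inl j)) ?_ 2 ?_
      · intro j hj
        rw [hZ, Finset.mem_filter] at hj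
        exact Finset.mem_sdiff.2 ⟨hmem _, path_miss_even j (t.σ (Sum.inl j)) hj.2⟩
      · intro f _
        refine le_trans ?_ (hfib f)
        refine Finset.card_le_card_of_injOn (fun j : Fin (2 * n) => (Sum.inl j :
          Fin (2 * n) ⊕ (Fin (r + 1) × Bool))) ?_ ?_
        · intro j hj
          rw [Finset.mem_coe, Finset.mem_filter] at hj
          exact Finset.mem_coe.2 (Finset.mem_filter.2 ⟨Finset.mem_univ _, hj.2⟩)
        · intro a _ b _ hab
          exact Sum.inl.inj hab
    have h3 : (((Finset.univ \ Z : Finset (Fin (2 * n))).card : ℕ) : ℤ) ≤ ∑ j : Fin (2 * n),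
        |dy n p r (Sum.inl j) - fx n p r (t.σ (Sum.inl j))| := by
      calc (((Finset.univ \ Z : Finset (Fin (2 * n))).card : ℕ) : ℤ)
          = ∑ _j ∈ Finset.univ \ Z, (1 : ℤ) := by simp
        _ ≤ ∑ j ∈ Finset.univ \ Z, |dy n p r (Sum.inl j) - fx n p r (t.σ (Sum.inl j))| := by
            refine Finset.sum_le_sum fun j hj => ?_
            rw [Finset.mem_sdiff, hZ, Finset.mem_filter] at hj
            have h4 : dy n p r (Sum.inl j) - fx n p r (t.σ (Sum.inl j)) ≠ 0 := by
              intro h5
              exact hj.2 ⟨Finset.mem_univ _, sub_eq_zero.1 h5⟩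
            exact Int.one_le_abs h4
        _ ≤ ∑ j : Fin (2 * n), |dy n p r (Sum.inl j) - fx n p r (t.σ (Sum.inl j))| :=
            Finset.sum_le_sum_of_subset_of_nonneg (Finset.subset_univ _)
              (fun _ _ _ => abs_nonneg _)
    have h4 : (Finset.univ \ Z : Finset (Fin (2 * n))).card = 2 * n - Z.card := by
      rw [Finset.card_sdiff_of_subset (Finset.subset_univ _), Finset.card_univ, Fintype.card_fin]
    have h5 : Z.card ≤ 2 * p := hZc.trans (by omega)
    have h6 : (2 * n : ℤ) - 2 * p ≤ ((Finset.univ \ Z : Finset (Fin (2 * n))).card : ℤ) := by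
      rw [h4]; omega
    exact h6.trans h3
  have h3 : zc n p r t.σ = ∑ j : Fin (2 * n),
      |dy n p r (Sum.inl j) - fx n p r (t.σ (Sum.inl j))| + ∑ y : Fin (r + 1) × Bool,
      |dy n p r (Sum.inr y) - fx n p r (t.σ (Sum.inr y))| := by
    unfold zc
    exact Fintype.sum_sum_type _
  rw [h3]
  linarith

open Classical in
/-- **The lower bound for uniform capacities.**
PROOF. `pathInst`, `path_s`, `path_o`, `card_sS`, `card_oS`, `path_all`, `path_miss`, `cost_zc`. For
`own`: `t.S ⊆ s.S` implies `t.size ≤ s.size` and `t.S \ s.S = ∅`. -/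
theorem path_lower (n p r : ℕ) : ∃ I : Inst, OnLine I ∧ (∀ i, I.U i = 2) ∧ ∃ s o : Sol I,
    s.size = n + 2 * r + 2 ∧ o.size = n + r + 2 ∧ LocOpt (n + 2 * r + 2) p 0 s ∧
    s.cost = 2 * n ∧ o.cost = 2 * p * (r + 1) := by
  obtain ⟨s, hs, hsc⟩ := path_s n p r
  obtain ⟨o, ho, hoc⟩ := path_o n p r
  have hss : s.size = n + 2 * r + 2 := by
    rw [← card_sS n r]
    exact congrArg Finset.card hs
  have key : ∀ t : Sol (pathInst n p r), t.size ≤ n + 2 * r + 2 → (t.S \ s.S).card ≤ p →
      s.cost ≤ t.cost := by
    intro t h1 h2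
    have h3 : (2 * n : ℤ) ≤ zc n p r t.σ := by
      by_cases h : ∀ z : Fin (r + 1) × Bool,
          (Sum.inr z : Fin (2 * n + 1) ⊕ (Fin (r + 1) × Bool)) ∈ t.S
      · exact path_all t h h1
      · push Not at h
        obtain ⟨z, hz⟩ := h
        refine path_miss t z hz ?_
        rw [hs] at h2
        exact h2
    rw [hsc, cost_zc]
    exact_mod_cast h3
  refine ⟨pathInst n p r, onLine_lineInst _ _ _ _ _, fun _ => rfl, s, o, hss, ?_,
    ⟨hss.le, ?_, ?_⟩, hsc, hoc⟩
  · rw [← card_oS n r]
    exact congrArg Finset.card ho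
  · intro t ht
    refine key t ?_ ?_
    · rw [← hss]
      exact Finset.card_le_card ht
    · rw [Finset.sdiff_eq_empty_iff_subset.2 ht, Finset.card_empty]
      exact Nat.zero_le _
  · intro t h1 h2
    rw [sub_zero, one_mul]
    exact key t h1 h2

end Pool.Agent.LSC
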