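import Pool.Agent.LSC.Li

/-!
# Two capacity values
-/

set_option autoImplicit false

namespace Pool.Agent.LSC

open Pool.Agent.Helper82.CKM

/-- `k + r` small facilities at `0`, `k - 1` large ones at `1`, one at `-M`; clients at `0` and one
at `-M`. -/
noncomputable def knapInst (k r : ℕ) (M : ℝ) : Inst :=
  lineInst (Fin (k + r) ⊕ (Fin (k - 1) ⊕ Unit)) (Fin (2 * (k - 1) * (k + r) - 1) ⊕ Unit)
    (Sum.elim (fun _ => 0) (Sum.elim (fun _ => 1) (fun _ => -M)))
    (Sum.elim (fun _ => 0) (fun _ => -M))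
    (Sum.elim (fun _ => 2 * (k - 1)) (Sum.elim (fun _ => 2 * (k + r)) (fun _ => 2 * (k - 1))))

/-- the small facilities -/
def sm (k r : ℕ) : Finset (Fin (k + r) ⊕ (Fin (k - 1) ⊕ Unit)) :=
  Finset.univ.filter fun z => z.isLeft = true

/-- the other facilities -/
def la (k r : ℕ) : Finset (Fin (k + r) ⊕ (Fin (k - 1) ⊕ Unit)) :=
  Finset.univ.filter fun z => z.isLeft = false

private theorem Nu_card_sm (k r : ℕ) : (sm k r).card = k + r := by
  have h : sm k r = Finset.univ.map Function.Embedding.inl := by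
    ext z
    cases z <;> simp [sm]
  rw [h, Finset.card_map, Finset.card_univ, Fintype.card_fin]

theorem card_sm (k r : ℕ) : (sm k r).card = k + r := Nu_card_sm k r

theorem card_la {k : ℕ} (r : ℕ) (hk : 2 ≤ k) : (la k r).card = k := by
  have h : la k r = Finset.univ.map Function.Embedding.inr := by
    ext z
    cases z <;> simp [la]
  rw [h, Finset.card_map, Finset.card_univ, Fintype.card_sum, Fintype.card_fin, Fintype.card_unit]
  omega

/-- fibres of a quotient -/
private theorem Nu_fib {D : Type} [Fintype D] (φ : D → ℕ) (hφ : Function.Injective φ) (c a : ℕ)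
    (hc : 0 < c) (P : D → Prop) [DecidablePred P] (hP : ∀ j, P j → φ j / c = a) :
    (Finset.univ.filter P).card ≤ c := by
  have h1 : (Finset.univ.filter P).card ≤ (Finset.Ico (a * c) (a * c + c)).card := by
    refine Finset.card_le_card_of_injOn φ ?_ hφ.injOn
    intro j hj
    have h2 := hP j (Finset.mem_filter.1 hj).2
    have h3 := Nat.div_add_mod (φ j) c
    have h4 := Nat.mod_lt (φ j) hc
    rw [h2, mul_comm] at h3
    exact Finset.mem_coe.2 (Finset.mem_Ico.2 ⟨by omega, by omega⟩)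
  simpa using h1

/-- numbers of the clients -/
private def Nu_num (N : ℕ) : Fin N ⊕ Unit → ℕ := Sum.elim (fun j => j.val) fun _ => N

private theorem Nu_num_inj (N : ℕ) : Function.Injective (Nu_num N) := by
  rintro (i | i) (j | j) h
  · exact congrArg Sum.inl (Fin.ext h)
  · exact absurd (show i.val = N from h) i.2.ne
  · exact absurd (show N = j.val from h) j.2.ne'
  · rfl

private theorem Nu_num_lt (N : ℕ) (j : Fin N ⊕ Unit) : Nu_num N j < N + 1 := by
  cases j with
  | inl j => exact j.2.trans (Nat.lt_succ_self _)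
  | inr j => exact Nat.lt_succ_self _

/-- PROOF. The client `inl j` goes to `inl (j / (2 (k - 1)))`, the client `inr ()` to `inl (k + r - 1)`.
With `inr ()` as number `2 (k - 1) (k + r) - 1` this is `j ↦ j / (2 (k - 1))` on
`Fin (2 (k - 1) (k + r))`: fibres of `2 (k - 1)` elements. Cost `M` (distance of `-M` and `0`). -/
theorem knap_s {k : ℕ} (r : ℕ) (hk : 2 ≤ k) {M : ℝ} (hM : 0 ≤ M) :
    ∃ s : Sol (knapInst k r M), s.S = sm k r ∧ s.cost = M := by
  classical
  have hc : 0 < 2 * (k - 1) := by omega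
  have hN : 2 * (k - 1) * (k + r) - 1 + 1 = 2 * (k - 1) * (k + r) := by
    have : 0 < 2 * (k - 1) * (k + r) := Nat.mul_pos hc (by omega)
    omega
  have hlt : ∀ j : Fin (2 * (k - 1) * (k + r) - 1) ⊕ Unit,
      Nu_num _ j / (2 * (k - 1)) < k + r := by
    intro j
    rw [Nat.div_lt_iff_lt_mul hc]
    have h1 := Nu_num_lt _ j
    rw [hN] at h1
    have h2 : (k + r) * (2 * (k - 1)) = 2 * (k - 1) * (k + r) := by ring
    rw [h2]
    exact h1
  let σ : Fin (2 * (k - 1) * (k + r) - 1) ⊕ Unit → Fin (k + r) ⊕ (Fin (k - 1) ⊕ Unit) :=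
    fun j => Sum.inl ⟨Nu_num _ j / (2 * (k - 1)), hlt j⟩
  refine ⟨⟨sm k r, σ, ?_, ?_⟩, rfl, ?_⟩
  · intro j
    exact Finset.mem_filter.2 ⟨Finset.mem_univ _, rfl⟩
  · intro i hi
    rcases i with a | i
    · refine Nu_fib (D := Fin (2 * (k - 1) * (k + r) - 1) ⊕ Unit) (Nu_num _) (Nu_num_inj _)
        (2 * (k - 1)) a.val hc _ ?_
      intro j hj
      have h1 : (Sum.inl ⟨Nu_num _ j / (2 * (k - 1)), hlt j⟩ :
        Fin (k + r) ⊕ (Fin (k - 1) ⊕ Unit)) = Sum.inl a := hj
      exact congrArg Fin.val (Sum.inl_injective h1)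
    · have h1 := (Finset.mem_filter.1 hi).2
      exact absurd h1 (by simp)
  · show ∑ j : Fin (2 * (k - 1) * (k + r) - 1) ⊕ Unit,
      |Sum.elim (fun _ => (0 : ℝ)) (fun _ => -M) j - 0| = M
    rw [Fintype.sum_sum_type]
    simp [abs_of_nonneg hM]

/-- PROOF. The client `inl j` goes to `inr (inl (j / (2 (k + r))))`, the client `inr ()` to
`inr (inr ())`. -/
theorem knap_o {k : ℕ} (r : ℕ) (hk : 2 ≤ k) (M : ℝ) :
    ∃ o : Sol (knapInst k r M), o.S = la k r ∧
      o.cost = ((2 * (k - 1) * (k + r) - 1 : ℕ) : ℝ) := by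
  classical
  have hc : 0 < 2 * (k + r) := by omega
  have hlt : ∀ j : Fin (2 * (k - 1) * (k + r) - 1), j.val / (2 * (k + r)) < k - 1 := by
    intro j
    rw [Nat.div_lt_iff_lt_mul hc]
    have h1 := j.2
    have h2 : (k - 1) * (2 * (k + r)) = 2 * (k - 1) * (k + r) := by ring
    rw [h2]
    omega
  let σ : Fin (2 * (k - 1) * (k + r) - 1) ⊕ Unit → Fin (k + r) ⊕ (Fin (k - 1) ⊕ Unit) :=
    Sum.elim (fun j => Sum.inr (Sum.inl ⟨j.val / (2 * (k + r)), hlt j⟩))
      fun _ => Sum.inr (Sum.inr ())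
  refine ⟨⟨la k r, σ, ?_, ?_⟩, rfl, ?_⟩
  · intro j
    rcases j with j | j
    · exact Finset.mem_filter.2 ⟨Finset.mem_univ _, rfl⟩
    · exact Finset.mem_filter.2 ⟨Finset.mem_univ _, rfl⟩
  · intro i hi
    rcases i with i | (a | i)
    · have h1 := (Finset.mem_filter.1 hi).2
      exact absurd h1 (by simp)
    · refine Nu_fib (D := Fin (2 * (k - 1) * (k + r) - 1) ⊕ Unit) (Nu_num _) (Nu_num_inj _)
        (2 * (k + r)) a.val hc _ ?_
      intro j hj
      rcases j with j | j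
      · have h1 : (Sum.inr (Sum.inl ⟨j.val / (2 * (k + r)), hlt j⟩) :
          Fin (k + r) ⊕ (Fin (k - 1) ⊕ Unit)) = Sum.inr (Sum.inl a) := hj
        exact congrArg Fin.val (Sum.inl_injective (Sum.inr_injective h1))
      · have h1 : (Sum.inr (Sum.inr ()) : Fin (k + r) ⊕ (Fin (k - 1) ⊕ Unit)) =
          Sum.inr (Sum.inl a) := hj
        exact absurd (Sum.inr_injective h1) (by simp)
    · have hc' : 0 < 2 * (k - 1) := by omega
      refine Nu_fib (D := Fin (2 * (k - 1) * (k + r) - 1) ⊕ Unit) (Nu_num _) (Nu_num_inj _)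
        (2 * (k - 1)) ((2 * (k - 1) * (k + r) - 1) / (2 * (k - 1))) hc' _ ?_
      intro j hj
      rcases j with j | j
      · have h1 : (Sum.inr (Sum.inl ⟨j.val / (2 * (k + r)), hlt j⟩) :
          Fin (k + r) ⊕ (Fin (k - 1) ⊕ Unit)) = Sum.inr (Sum.inr i) := hj
        exact absurd (Sum.inr_injective h1) (by simp)
      · rfl
  · show ∑ j : Fin (2 * (k - 1) * (k + r) - 1) ⊕ Unit,
      |Sum.elim (fun _ => (0 : ℝ)) (fun _ => -M) j -
        (Sum.elim (fun _ => (0 : ℝ)) (Sum.elim (fun _ => (1 : ℝ)) (fun _ => -M))) (σ j)| = _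
    rw [Fintype.sum_sum_type]
    simp [σ]

private theorem knap_big_num {k r p b c : ℕ} (hk : 2 ≤ k) (h : (p - 1) * (r + 1) ≤ k - 2)
    (hc : c + 1 ≤ p) (hb : b + 1 ≤ k + r)
    (e6 : 2 * (k - 1) * (k + r) - 1 ≤ 2 * (k - 1) * b + 2 * (r + 1) * c) : False := by
  obtain ⟨q, rfl⟩ : ∃ q, p = q + 1 := ⟨p - 1, by omega⟩
  obtain ⟨l, rfl⟩ : ∃ l, k = l + 2 := ⟨k - 2, by omega⟩
  simp only [Nat.add_sub_cancel] at h
  have e7 : l + 2 - 1 = l + 1 := by omega
  rw [e7] at e6
  have e8 : c ≤ q := by omega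
  have e9 : b ≤ l + 1 + r := by omega
  have e10 : 2 * (l + 1) * b ≤ 2 * (l + 1) * (l + 1 + r) := Nat.mul_le_mul_left _ e9
  have e11 : 2 * (r + 1) * c ≤ 2 * (r + 1) * q := Nat.mul_le_mul_left _ e8
  have e12 : 2 * (r + 1) * q = 2 * (q * (r + 1)) := by ring
  have e13 : 2 * (l + 1) * (l + 2 + r) = 2 * (l + 1) * (l + 1 + r) + 2 * (l + 1) := by ring
  omega

private theorem knap_big_count {k r p : ℕ} (hk : 2 ≤ k) (h : (p - 1) * (r + 1) ≤ k - 2)
    (S : Finset (Fin (k + r) ⊕ (Fin (k - 1) ⊕ Unit)))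
    (σ : Fin (2 * (k - 1) * (k + r) - 1) ⊕ Unit → Fin (k + r) ⊕ (Fin (k - 1) ⊕ Unit))
    (mem : ∀ j, σ j ∈ S)
    (cap : ∀ i ∈ S, ∀ T : Finset (Fin (2 * (k - 1) * (k + r) - 1) ⊕ Unit),
      (∀ j ∈ T, σ j = i) → T.card ≤ (Sum.elim (fun _ => 2 * (k - 1))
        (Sum.elim (fun _ => 2 * (k + r)) (fun _ => 2 * (k - 1))) :
          Fin (k + r) ⊕ (Fin (k - 1) ⊕ Unit) → ℕ) i)
    (hS : S.card ≤ k + r)
    (hp : ∀ T : Finset (Fin (k + r) ⊕ (Fin (k - 1) ⊕ Unit)), (∀ i ∈ T, i ∈ S ∧ i ∉ sm k r) →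
      T.card ≤ p)
    (h1 : σ (Sum.inr ()) = Sum.inr (Sum.inr ()))
    (h2 : ∀ j, σ (Sum.inl j) ≠ Sum.inr (Sum.inr ())) : False := by
  have ha : (Sum.inr (Sum.inr ()) : Fin (k + r) ⊕ (Fin (k - 1) ⊕ Unit)) ∈ S := by
    rw [← h1]
    exact mem _
  obtain ⟨B, hB⟩ : ∃ B, B = S.erase (Sum.inr (Sum.inr ())) := ⟨_, rfl⟩
  have hBc : B.card + 1 = S.card := by
    rw [hB, Finset.card_erase_of_mem ha]
    have := Finset.card_pos.2 ⟨_, ha⟩
    omega
  -- the number of clients
  have e1 : 2 * (k - 1) * (k + r) - 1 = ∑ i ∈ B,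
      (Finset.univ.filter fun j : Fin (2 * (k - 1) * (k + r) - 1) => σ (Sum.inl j) = i).card := by
    rw [← Finset.card_eq_sum_card_fiberwise (f := fun j => σ (Sum.inl j)) (s := Finset.univ)
      (t := B)]
    · rw [Finset.card_univ, Fintype.card_fin]
    · intro j _
      rw [hB]
      exact Finset.mem_coe.2 (Finset.mem_erase.2 ⟨h2 j, mem _⟩)
  have e2 : ∀ i ∈ B, (Finset.univ.filter
      fun j : Fin (2 * (k - 1) * (k + r) - 1) => σ (Sum.inl j) = i).card ≤
        2 * (k - 1) + if i.isLeft = false then 2 * (r + 1) else 0 := by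
    intro i hi
    have hiS : i ∈ S := by
      rw [hB] at hi
      exact Finset.mem_of_mem_erase hi
    have e3 := cap i hiS ((Finset.univ.filter
        fun j : Fin (2 * (k - 1) * (k + r) - 1) => σ (Sum.inl j) = i).image Sum.inl) (by
      intro j hj
      obtain ⟨j', hj', rfl⟩ := Finset.mem_image.1 hj
      exact (Finset.mem_filter.1 hj').2)
    rw [Finset.card_image_of_injective _ Sum.inl_injective] at e3
    refine e3.trans ?_
    rcases i with i | i | i
    · simp
    · simp only [Sum.elim_inr, Sum.elim_inl, Sum.isLeft_inr, if_true]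
      omega
    · simp
  have e4 : ∑ i ∈ B, (2 * (k - 1) + if i.isLeft = false then 2 * (r + 1) else 0) =
      2 * (k - 1) * B.card + 2 * (r + 1) * (B.filter fun i => i.isLeft = false).card := by
    rw [Finset.sum_add_distrib, Finset.sum_const, smul_eq_mul, ← Finset.sum_filter,
      Finset.sum_const, smul_eq_mul]
    ring
  have e5 : (B.filter fun i => i.isLeft = false).card + 1 ≤ p := by
    have h3 : Sum.inr (Sum.inr ()) ∉ B.filter fun i => i.isLeft = false := by
      intro hcon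
      have h4 := (Finset.mem_filter.1 hcon).1
      rw [hB] at h4
      exact (Finset.mem_erase.1 h4).1 rfl
    rw [← Finset.card_insert_of_notMem h3]
    refine hp _ ?_
    intro i hi
    rcases Finset.mem_insert.1 hi with rfl | hi
    · exact ⟨ha, by simp [sm]⟩
    · obtain ⟨h4, h5⟩ := Finset.mem_filter.1 hi
      rw [hB] at h4
      exact ⟨(Finset.mem_erase.1 h4).2, by simp [sm, h5]⟩
  have e6 := Finset.sum_le_sum e2
  rw [← e1, e4] at e6
  exact knap_big_num hk h e5 (by omega) e6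

open Classical in
/-- PROOF. If the client `inr ()` is not assigned to `a := inr (inr ())`, or some client `inl j` is
assigned to `a`, then this client pays at least `M`. Otherwise `a ∈ t.S` and the
`N = 2 (k - 1) (k + r) - 1` clients `inl j` are assigned to `B := t.S \ {a}`, so `N` is at most the sum of
the capacities of `B`. `B.card ≤ k + r - 1`; the number `l` of the large ones in `B` satisfies
`l + 1 ≤ p` (they and `a` are in `t.S \ sm`). The sum is
`2 (k - 1) B.card + 2 (r + 1) l ≤ 2 (k - 1) (k + r - 1) + 2 (r + 1) (p - 1) ≤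
2 (k - 1) (k + r) - 2 (k - 1) + 2 (k - 2) < N`. -/
theorem knap_big {k r p : ℕ} (hk : 2 ≤ k) (h : (p - 1) * (r + 1) ≤ k - 2) {M : ℝ} (hM : 0 ≤ M)
    (t : Sol (knapInst k r M)) (ht : t.size ≤ k + r)
    (hp : (t.S \ (sm k r : Finset (knapInst k r M).F)).card ≤ p) : M ≤ t.cost := by
  by_contra hlt
  push Not at hlt
  have hcs : ∀ j, (knapInst k r M).d (Sum.inr j) (Sum.inl (t.σ j)) < M := by
    intro j
    refine lt_of_le_of_lt ?_ hlt
    exact Finset.single_le_sum (f := cs t) (fun j _ => cs_nonneg t j) (Finset.mem_univ j)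
  have h1 : t.σ (Sum.inr ()) = (Sum.inr (Sum.inr ()) : Fin (k + r) ⊕ (Fin (k - 1) ⊕ Unit)) := by
    have h3 := hcs (Sum.inr ())
    generalize t.σ (Sum.inr ()) = z at h3
    rcases z with z | z | z
    · exfalso
      have e : (knapInst k r M).d (Sum.inr (Sum.inr ())) (Sum.inl (Sum.inl z)) = |(-M) - 0| := rfl
      rw [e, sub_zero, abs_neg, abs_of_nonneg hM] at h3
      exact lt_irrefl _ h3
    · exfalso
      have e : (knapInst k r M).d (Sum.inr (Sum.inr ())) (Sum.inl (Sum.inr (Sum.inl z))) =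
        |(-M) - 1| := rfl
      rw [e, abs_of_neg (by linarith)] at h3
      linarith
    · rfl
  have h2 : ∀ j, t.σ (Sum.inl j) ≠
      (Sum.inr (Sum.inr ()) : Fin (k + r) ⊕ (Fin (k - 1) ⊕ Unit)) := by
    intro j hj
    have h3 := hcs (Sum.inl j)
    rw [hj] at h3
    have e : (knapInst k r M).d (Sum.inr (Sum.inl j)) (Sum.inl (Sum.inr (Sum.inr ()))) =
      |0 - (-M)| := rfl
    rw [e, sub_neg_eq_add, zero_add, abs_of_nonneg hM] at h3
    exact lt_irrefl _ h3
  refine knap_big_count hk h t.S t.σ t.mem (fun i hi T hT => ?_) ht (fun T hT => ?_) h1 h2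
  · refine le_trans (Finset.card_le_card ?_) (t.cap i hi)
    intro j hj
    exact Finset.mem_filter.2 ⟨Finset.mem_univ _, hT j hj⟩
  · refine le_trans (Finset.card_le_card ?_) hp
    intro i hi
    exact (@Finset.mem_sdiff _ (fun a b => Classical.propDecidable (a = b)) _ _ _).2 (hT i hi)

open Classical in
/-- **The lower bound for two capacity values.**
PROOF. `knapInst k r M` with `M := |ρ| * N + 1`, `N = 2 (k - 1) (k + r) - 1 ≥ 1`. For `own`:
`t.S ⊆ s.S` implies `t.size ≤ k + r` and `t.S \ s.S = ∅`. -/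
theorem knap_lower (k r p : ℕ) (hk : 2 ≤ k) (h : (p - 1) * (r + 1) ≤ k - 2) (ρ : ℝ) :
    ∃ I : Inst, OnLine I ∧ (∀ i, I.U i = 2 * (k - 1) ∨ I.U i = 2 * (k + r)) ∧ ∃ s o : Sol I,
      s.size = k + r ∧ o.size = k ∧ LocOpt (k + r) p 0 s ∧ 0 < o.cost ∧
      ρ * o.cost < s.cost := by
  have hN : 1 ≤ 2 * (k - 1) * (k + r) - 1 := by
    have h1 : 2 * 1 * 2 ≤ 2 * (k - 1) * (k + r) :=
      Nat.mul_le_mul (Nat.mul_le_mul_left 2 (by omega)) (by omega)
    omega
  have hN' : (1 : ℝ) ≤ ((2 * (k - 1) * (k + r) - 1 : ℕ) : ℝ) := by exact_mod_cast hN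
  set N : ℝ := ((2 * (k - 1) * (k + r) - 1 : ℕ) : ℝ) with hNdef
  have hM : 0 ≤ |ρ| * N + 1 := by positivity
  obtain ⟨s, hs1, hs2⟩ := knap_s r hk hM
  obtain ⟨o, ho1, ho2⟩ := knap_o r hk (|ρ| * N + 1)
  have hss : s.size = k + r := by
    have h1 : s.size = s.S.card := rfl
    rw [h1, hs1]
    exact card_sm k r
  refine ⟨knapInst k r (|ρ| * N + 1), onLine_lineInst _ _ _ _ _, ?_, s, o, hss, ?_, ?_, ?_, ?_⟩
  · rintro (i | i | i)
    · exact Or.inl rfl
    · exact Or.inr rfl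
    · exact Or.inl rfl
  · have h1 : o.size = o.S.card := rfl
    rw [h1, ho1]
    exact card_la r hk
  · refine ⟨hss.le, ?_, ?_⟩
    · intro t ht
      rw [hs2]
      refine knap_big hk h hM t ?_ ?_
      · rw [← hss]
        exact Finset.card_le_card ht
      · rw [hs1] at ht
        rw [Finset.sdiff_eq_empty_iff_subset.2 ht]
        exact Nat.zero_le _
    · intro t ht1 ht2
      rw [hs1] at ht2
      rw [sub_zero, one_mul, hs2]
      exact knap_big hk h hM t ht1 ht2
  · rw [ho2]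
    linarith
  · rw [ho2, hs2]
    have h1 : ρ * N ≤ |ρ| * N := mul_le_mul_of_nonneg_right (le_abs_self ρ) (by linarith)
    linarith

end Pool.Agent.LSC
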