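import Pool.Agent.LSC.Up
import Pool.Agent.LSC.Lo3
import Pool.Agent.LSC.Nu

/-!
# The factor `1 + 2 / δ`
-/

set_option autoImplicit false

namespace Pool.Agent.LSC

open Pool.Agent.Helper82.CKM

/-- PROOF. `upper` with `p := 1`, `r := ⌊(1 + δ) k⌋₊ - k`, so `δ k < r + 1`; `(2 k - 1 + r) / (r + 1) ≤ 1 + 2 k / (r + 1)`. -/
theorem single {I : Inst} {u : ℕ} (hU : ∀ i, I.U i = u) {k : ℕ} {δ η : ℝ} (hδ : 0 < δ)
    (hη : 0 ≤ η) (hk : 1 ≤ k) (s o : Sol I) (hs : LocOpt ⌊(1 + δ) * k⌋₊ 1 η s)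
    (ho : o.size ≤ k) : (1 - η * k) * s.cost ≤ (1 + 2 / δ) * o.cost := by
  have hk0 : (0 : ℝ) < k := by exact_mod_cast hk
  have hle : k ≤ ⌊(1 + δ) * k⌋₊ := by
    apply Nat.le_floor
    nlinarith
  obtain ⟨r, hr⟩ := Nat.exists_eq_add_of_le hle
  rw [hr] at hs
  have h1 := upper hU hη le_rfl hk s o hs ho
  have h2 : (1 + δ) * k < (k : ℝ) + r + 1 := by
    have h3 := Nat.lt_floor_add_one ((1 + δ) * k)
    rw [hr] at h3
    push_cast at h3
    exact h3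
  have h3 : δ * k < r + 1 := by linarith
  have hr0 : (0 : ℝ) < r + 1 := by positivity
  have h4 : (0 : ℝ) ≤ o.cost := Finset.sum_nonneg fun j _ => I.nonneg _ _
  push_cast at h1
  rw [div_one] at h1
  have h5 : (2 * k - 1 + r) ≤ (1 + 2 / δ) * ((r : ℝ) + 1) := by
    have h6 : 2 * (k : ℝ) ≤ 2 / δ * (r + 1) := by
      rw [div_mul_eq_mul_div, le_div_iff₀ hδ]
      nlinarith
    nlinarith
  have h6 := mul_le_mul_of_nonneg_right h5 h4
  have h7 : ((r : ℝ) + 1) * ((1 - η * k) * s.cost) ≤ (r + 1) * ((1 + 2 / δ) * o.cost) := by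
    nlinarith
  exact le_of_mul_le_mul_left h7 hr0

end Pool.Agent.LSC
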