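import Pool.Agent.LSC.Df

/-!
# Instances on the real line
-/

set_option autoImplicit false

namespace Pool.Agent.LSC

open Pool.Agent.Helper82.CKM

/-- The instance with facilities at the points `x i`, clients at the points `y j` of the real line
and capacities `U i`. -/
def lineInst (F D : Type) [fF : Fintype F] [fD : Fintype D] (x : F → ℝ) (y : D → ℝ) (U : F → ℕ) :
    Inst where
  F := F
  D := D
  fF := fF
  fD := fD
  d := fun a b => |Sum.elim x y a - Sum.elim x y b|
  nonneg := fun _ _ => abs_nonneg _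
  self := fun a => by rw [sub_self, abs_zero]
  symm := fun a b => abs_sub_comm _ _
  tri := fun a b c => abs_sub_le _ _ _
  U := U

/-- All distances are differences of positions on the real line. -/
def OnLine (I : Inst) : Prop := ∃ pos : I.F ⊕ I.D → ℝ, ∀ a b, I.d a b = |pos a - pos b|

theorem onLine_lineInst (F D : Type) [Fintype F] [Fintype D] (x : F → ℝ) (y : D → ℝ)
    (U : F → ℕ) : OnLine (lineInst F D x y U) := ⟨Sum.elim x y, fun _ _ => rfl⟩

/-! The path instance -/

/-- positions of the facilities -/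
def fx (n p r : ℕ) : Fin (2 * n + 1) ⊕ (Fin (r + 1) × Bool) → ℤ
  | Sum.inl i => (i.val : ℤ)
  | Sum.inr z => -(((z.1.val + 1) * (2 * n + 4 * p) + (if z.2 then 2 * p else 0) : ℕ) : ℤ)

/-- positions of the clients -/
def dy (n p r : ℕ) : Fin (2 * n) ⊕ (Fin (r + 1) × Bool) → ℤ
  | Sum.inl j => ((2 * ((j.val + 1) / 2) : ℕ) : ℤ)
  | Sum.inr z => fx n p r (Sum.inr z)

/-- the instance, all capacities are `2` -/
noncomputable def pathInst (n p r : ℕ) : Inst :=
  lineInst (Fin (2 * n + 1) ⊕ (Fin (r + 1) × Bool)) (Fin (2 * n) ⊕ (Fin (r + 1) × Bool))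
    (fun i => (fx n p r i : ℝ)) (fun j => (dy n p r j : ℝ)) (fun _ => 2)

/-- the cost of an assignment as an integer -/
def zc (n p r : ℕ)
    (σ : Fin (2 * n) ⊕ (Fin (r + 1) × Bool) → Fin (2 * n + 1) ⊕ (Fin (r + 1) × Bool)) : ℤ :=
  ∑ j, |dy n p r j - fx n p r (σ j)|

/-- PROOF. Casts. -/
theorem cost_zc {n p r : ℕ} (t : Sol (pathInst n p r)) : t.cost = (zc n p r t.σ : ℝ) := by
  rw [zc, Int.cast_sum]
  refine Finset.sum_congr rfl fun j _ => ?_
  rw [Int.cast_abs, Int.cast_sub]
  rfl

/-- the odd points of the path and both points of all pairs -/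
def sS (n r : ℕ) : Finset (Fin (2 * n + 1) ⊕ (Fin (r + 1) × Bool)) :=
  Finset.univ.filter fun z =>
    Sum.elim (fun i : Fin (2 * n + 1) => decide (i.val % 2 = 1)) (fun _ => true) z = true

/-- the even points of the path and one point of all pairs -/
def oS (n r : ℕ) : Finset (Fin (2 * n + 1) ⊕ (Fin (r + 1) × Bool)) :=
  Finset.univ.filter fun z =>
    Sum.elim (fun i : Fin (2 * n + 1) => decide (i.val % 2 = 0)) (fun y => !y.2) z = true

end Pool.Agent.LSC
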