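import Pool.Agent.LSC.Li

/-!
# The path instance: the two solutions
-/

set_option autoImplicit false

namespace Pool.Agent.LSC

open Pool.Agent.Helper82.CKM

private theorem Lo1_odd (n : ℕ) :
    ∑ i ∈ Finset.range (2 * n + 1), (if i % 2 = 1 then 1 else 0) = n := by
  induction n with
  | zero => rfl
  | succ n ih =>
    rw [show 2 * (n + 1) + 1 = 2 * n + 1 + 1 + 1 by ring, Finset.sum_range_succ,
      Finset.sum_range_succ, ih, if_pos (by omega), if_neg (by omega)]

private theorem Lo1_even (n : ℕ) :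
    ∑ i ∈ Finset.range (2 * n + 1), (if i % 2 = 0 then 1 else 0) = n + 1 := by
  induction n with
  | zero => rfl
  | succ n ih =>
    rw [show 2 * (n + 1) + 1 = 2 * n + 1 + 1 + 1 by ring, Finset.sum_range_succ,
      Finset.sum_range_succ, ih, if_neg (by omega), if_pos (by omega)]

/-- PROOF. The odd numbers below `2 n + 1` are `2 m + 1`, `m < n`; for the pairs `2 (r + 1)`. (For example a
bijection with `Fin n ⊕ (Fin (r + 1) × Bool)`.) -/
theorem card_sS (n r : ℕ) : (sS n r).card = n + 2 * r + 2 := by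
  rw [sS, Finset.card_filter, Fintype.sum_sum_type]
  simp only [Sum.elim_inl, Sum.elim_inr, decide_eq_true_eq, if_true, Finset.sum_const,
    Finset.card_univ, smul_eq_mul, mul_one, Fintype.card_prod, Fintype.card_fin, Fintype.card_bool]
  rw [Fin.sum_univ_eq_sum_range (fun i => if i % 2 = 1 then 1 else 0), Lo1_odd]
  omega

/-- PROOF. Bijection with `Fin (n + 1) ⊕ Fin (r + 1)`. -/
theorem card_oS (n r : ℕ) : (oS n r).card = n + r + 2 := by
  rw [oS, Finset.card_filter, Fintype.sum_sum_type]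
  simp only [Sum.elim_inl, Sum.elim_inr, decide_eq_true_eq]
  rw [Fin.sum_univ_eq_sum_range (fun i => if i % 2 = 0 then 1 else 0), Lo1_even,
    Fintype.sum_prod_type]
  simp only [Fintype.sum_bool, Bool.not_true, Bool.not_false, Bool.false_eq_true, if_false,
    if_true, zero_add, Finset.sum_const, Finset.card_univ, Fintype.card_fin, smul_eq_mul, mul_one]
  omega

private theorem Lo1_two {N : ℕ} {Z : Type} (A : Finset (Fin N ⊕ Z)) (a b : ℕ)
    (h : ∀ x ∈ A, ∃ j : Fin N, x = Sum.inl j ∧ (j.val = a ∨ j.val = b)) : A.card ≤ 2 := by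
  have h1 : A.card ≤ ({a, b} : Finset ℕ).card := by
    refine Finset.card_le_card_of_injOn (Sum.elim (fun j : Fin N => j.val) (fun _ => 0)) ?_ ?_
    · intro x hx
      obtain ⟨j, rfl, hj⟩ := h x hx
      simpa using hj
    · intro x hx y hy hxy
      obtain ⟨j, rfl, _⟩ := h x hx
      obtain ⟨k, rfl, _⟩ := h y hy
      exact congrArg Sum.inl (Fin.ext hxy)
  exact h1.trans Finset.card_le_two

private theorem Lo1_pair {N : ℕ} {Z : Type} (A : Finset (Fin N ⊕ Z)) (a b : Z)
    (h : ∀ x ∈ A, x = Sum.inr a ∨ x = Sum.inr b) : A.card ≤ 2 := by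
  classical
  have h1 : A ⊆ {Sum.inr a, Sum.inr b} := by
    intro x hx
    rw [Finset.mem_insert, Finset.mem_singleton]
    exact h x hx
  exact (Finset.card_le_card h1).trans Finset.card_le_two

/-- the assignment of the first solution -/
private def Lo1_sg (n r : ℕ) :
    Fin (2 * n) ⊕ (Fin (r + 1) × Bool) → Fin (2 * n + 1) ⊕ (Fin (r + 1) × Bool)
  | Sum.inl j => Sum.inl ⟨2 * (j.val / 2) + 1, by omega⟩
  | Sum.inr z => Sum.inr z

/-- the assignment of the second solution -/
private def Lo1_og (n r : ℕ) :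
    Fin (2 * n) ⊕ (Fin (r + 1) × Bool) → Fin (2 * n + 1) ⊕ (Fin (r + 1) × Bool)
  | Sum.inl j => Sum.inl ⟨2 * ((j.val + 1) / 2), by omega⟩
  | Sum.inr z => Sum.inr (z.1, false)

private theorem Lo1_scap (n r : ℕ) (i : Fin (2 * n + 1) ⊕ (Fin (r + 1) × Bool))
    [DecidablePred fun j => Lo1_sg n r j = i] :
    (Finset.univ.filter fun j => Lo1_sg n r j = i).card ≤ 2 := by
  rcases i with i | z
  · refine Lo1_two _ (i.val - 1) i.val fun x hx => ?_
    rw [Finset.mem_filter] at hx
    rcases x with j | y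
    · refine ⟨j, rfl, ?_⟩
      have h1 : (⟨2 * (j.val / 2) + 1, by omega⟩ : Fin (2 * n + 1)) = i := Sum.inl.inj hx.2
      have h2 : 2 * (j.val / 2) + 1 = i.val := congrArg Fin.val h1
      omega
    · exact absurd hx.2 (by simp [Lo1_sg])
  · refine Lo1_pair _ z z fun x hx => ?_
    rw [Finset.mem_filter] at hx
    rcases x with j | y
    · exact absurd hx.2 (by simp [Lo1_sg])
    · left
      have h1 : y = z := Sum.inr.inj hx.2
      rw [h1]

private theorem Lo1_ocap (n r : ℕ) (i : Fin (2 * n + 1) ⊕ (Fin (r + 1) × Bool))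
    [DecidablePred fun j => Lo1_og n r j = i] :
    (Finset.univ.filter fun j => Lo1_og n r j = i).card ≤ 2 := by
  rcases i with i | z
  · refine Lo1_two _ (i.val - 1) i.val fun x hx => ?_
    rw [Finset.mem_filter] at hx
    rcases x with j | y
    · refine ⟨j, rfl, ?_⟩
      have h1 : (⟨2 * ((j.val + 1) / 2), by omega⟩ : Fin (2 * n + 1)) = i := Sum.inl.inj hx.2
      have h2 : 2 * ((j.val + 1) / 2) = i.val := congrArg Fin.val h1
      omega
    · exact absurd hx.2 (by simp [Lo1_og])
  · refine Lo1_pair _ (z.1, true) (z.1, false) fun x hx => ?_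
    rw [Finset.mem_filter] at hx
    rcases x with j | y
    · exact absurd hx.2 (by simp [Lo1_og])
    · have h1 : ((y.1, false) : Fin (r + 1) × Bool) = z := Sum.inr.inj hx.2
      obtain ⟨y1, y2⟩ := y
      subst h1
      cases y2
      · right
        rfl
      · left
        rfl

private theorem Lo1_szc (n p r : ℕ) : zc n p r (Lo1_sg n r) = 2 * n := by
  rw [zc, Fintype.sum_sum_type]
  have h1 : ∀ j : Fin (2 * n), |dy n p r (Sum.inl j) - fx n p r (Lo1_sg n r (Sum.inl j))| = 1 := by
    intro j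
    change |((2 * ((j.val + 1) / 2) : ℕ) : ℤ) - ((2 * (j.val / 2) + 1 : ℕ) : ℤ)| = 1
    rcases Nat.even_or_odd' j.val with ⟨c, hc | hc⟩
    · have e : ((2 * ((j.val + 1) / 2) : ℕ) : ℤ) - ((2 * (j.val / 2) + 1 : ℕ) : ℤ) = -1 := by omega
      rw [e]
      rfl
    · have e : ((2 * ((j.val + 1) / 2) : ℕ) : ℤ) - ((2 * (j.val / 2) + 1 : ℕ) : ℤ) = 1 := by omega
      rw [e]
      rfl
  have h2 : ∀ z : Fin (r + 1) × Bool,
      |dy n p r (Sum.inr z) - fx n p r (Lo1_sg n r (Sum.inr z))| = 0 := by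
    intro z
    change |fx n p r (Sum.inr z) - fx n p r (Sum.inr z)| = 0
    rw [sub_self, abs_zero]
  rw [Finset.sum_congr rfl fun j _ => h1 j, Finset.sum_congr rfl fun z _ => h2 z]
  simp

private theorem Lo1_ozc (n p r : ℕ) : zc n p r (Lo1_og n r) = 2 * p * (r + 1) := by
  rw [zc, Fintype.sum_sum_type]
  have h1 : ∀ j : Fin (2 * n), |dy n p r (Sum.inl j) - fx n p r (Lo1_og n r (Sum.inl j))| = 0 := by
    intro j
    change |((2 * ((j.val + 1) / 2) : ℕ) : ℤ) - ((2 * ((j.val + 1) / 2) : ℕ) : ℤ)| = 0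
    rw [sub_self, abs_zero]
  have h2 : ∀ z : Fin (r + 1) × Bool,
      |dy n p r (Sum.inr z) - fx n p r (Lo1_og n r (Sum.inr z))| = if z.2 then 2 * p else 0 := by
    rintro ⟨i, b⟩
    change |(-(((i.val + 1) * (2 * n + 4 * p) + (if b then 2 * p else 0) : ℕ) : ℤ)) -
      (-(((i.val + 1) * (2 * n + 4 * p) + (if false = true then 2 * p else 0) : ℕ) : ℤ))| =
      if b then 2 * p else 0
    cases b
    · simp
    · have e : (-(((i.val + 1) * (2 * n + 4 * p) + (if true = true then 2 * p else 0) : ℕ) : ℤ)) -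
          (-(((i.val + 1) * (2 * n + 4 * p) + (if false = true then 2 * p else 0) : ℕ) : ℤ)) =
          -(2 * (p : ℤ)) := by
        rw [if_pos rfl, if_neg Bool.false_ne_true]
        push_cast
        ring
      rw [e, abs_neg, abs_of_nonneg (by positivity), if_pos rfl]
      push_cast
      ring
  rw [Finset.sum_congr rfl fun j _ => h1 j, Finset.sum_congr rfl fun z _ => h2 z,
    Fintype.sum_prod_type]
  simp
  ring

/-- PROOF. The client `inl j` goes to `inl (2 (j / 2) + 1)` (distance `1`; the fibre is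
`{2 m, 2 m + 1}`), the client `inr z` to `inr z` (distance `0`). -/
theorem path_s (n p r : ℕ) : ∃ s : Sol (pathInst n p r), s.S = sS n r ∧ s.cost = 2 * n := by
  refine ⟨{ S := sS n r, σ := Lo1_sg n r, mem := ?_, cap := fun i _ => ?_ }, rfl, ?_⟩
  · intro j
    change Lo1_sg n r j ∈ sS n r
    rw [sS, Finset.mem_filter]
    refine ⟨Finset.mem_univ _, ?_⟩
    rcases j with j | z
    · change decide ((2 * (j.val / 2) + 1) % 2 = 1) = true
      rw [decide_eq_true_eq]
      omega
    · rfl
  · change _ ≤ 2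
    exact @Lo1_scap n r i (fun _ => Classical.propDecidable _)
  · rw [cost_zc]
    change ((zc n p r (Lo1_sg n r) : ℤ) : ℝ) = 2 * n
    rw [Lo1_szc]
    push_cast
    ring

/-- PROOF. The client `inl j` goes to `inl (2 ((j + 1) / 2))` (distance `0`, fibre
`{2 m - 1, 2 m}`), the client `inr (i, b)` to `inr (i, false)` (distance `2 p` if `b = true`, else `0`). -/
theorem path_o (n p r : ℕ) :
    ∃ o : Sol (pathInst n p r), o.S = oS n r ∧ o.cost = 2 * p * (r + 1) := by
  refine ⟨{ S := oS n r, σ := Lo1_og n r, mem := ?_, cap := fun i _ => ?_ }, rfl, ?_⟩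
  · intro j
    change Lo1_og n r j ∈ oS n r
    rw [oS, Finset.mem_filter]
    refine ⟨Finset.mem_univ _, ?_⟩
    rcases j with j | z
    · change decide ((2 * ((j.val + 1) / 2)) % 2 = 0) = true
      rw [decide_eq_true_eq]
      omega
    · rfl
  · change _ ≤ 2
    exact @Lo1_ocap n r i (fun _ => Classical.propDecidable _)
  · rw [cost_zc]
    change ((zc n p r (Lo1_og n r) : ℤ) : ℝ) = 2 * p * (r + 1)
    rw [Lo1_ozc]
    push_cast
    ring

end Pool.Agent.LSC
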