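import Pool.Agent.LSC.Tr

/-!
# Opening facilities of another solution
-/

set_option autoImplicit false

namespace Pool.Agent.LSC

open Pool.Agent.Helper82.CKM

section

variable {I : Inst} {u : ℕ}

open Classical in
/-- Classes of clients for the facilities of `o` that are not in `s`.
PROOF. `b`, `a` slot maps of `s` and `o` (`exists_slot`). `C h := {j | Bw a b (fun x => (a x).1 = h) j}`.
For `h ∉ s.S` an `x` with `(a x).1 = h` has no successor: `b y = a x` gives `s.σ y = h`, but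
`s.σ y ∈ s.S`. So the `C h`, `h ∈ o.S \ s.S`, are disjoint (`bw_unique`) and closed under
successors (`bw_succ`) and predecessors (`bw_pred`). (i) `A := ∃ h ∈ Y, j ∈ C h` is closed under successors: `glue_inj`,
`sol_of_slot` with the open set `s.S ∪ Y`: if `j ∈ C h`, `h ∈ Y`, then `o.σ j ∈ s.S`, or `o.σ j = h'`
in `o.S \ s.S`, then `j ∈ C h'` (zero steps), so `h' = h`. (ii) `A := ¬ ∃ h ∈ (o.S \ s.S) \ Y, j ∈ C h` is closed under
successors by `bw_pred`; if `A j` and `o.σ j ∉ s.S` then `j ∈ C (o.σ j)`, so `o.σ j ∈ Y`. -/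
theorem open_classes (hU : ∀ i, I.U i = u) (s o : Sol I) : ∃ C : I.F → Finset I.D,
    (∀ h ∈ o.S \ s.S, ∀ h' ∈ o.S \ s.S, h ≠ h' → Disjoint (C h) (C h')) ∧
    (∀ Y ⊆ o.S \ s.S, ∃ t : Sol I, t.S = s.S ∪ Y ∧
      ∀ j, t.σ j = if (∃ h ∈ Y, j ∈ C h) then o.σ j else s.σ j) ∧
    (∀ Y ⊆ o.S \ s.S, ∃ t : Sol I, t.S = s.S ∪ Y ∧
      ∀ j, t.σ j = if (∃ h ∈ (o.S \ s.S) \ Y, j ∈ C h) then s.σ j else o.σ j) := by
  obtain ⟨b, hb, hb1⟩ := exists_slot hU s
  obtain ⟨a, ha, ha1⟩ := exists_slot hU o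
  have hE : ∀ h, h ∉ s.S → ∀ x y, (a x).1 = h → ¬ Stp a b x y := by
    intro h hh x y hx hs
    have h1 : (b y).1 = h := by
      have h2 : b y = a x := hs
      rw [h2]; exact hx
    rw [hb1 y] at h1
    exact hh (h1 ▸ s.mem y)
  have hC : ∀ h j, j ∈ (Finset.univ.filter fun j => Bw a b (fun x => (a x).1 = h) j) ↔
      Bw a b (fun x => (a x).1 = h) j := by
    intro h j
    simp
  have huniq : ∀ h, h ∉ s.S → ∀ h', h' ∉ s.S → ∀ j, Bw a b (fun x => (a x).1 = h) j →
      Bw a b (fun x => (a x).1 = h') j → h = h' := by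
    intro h hh h' hh' j hj hj'
    obtain ⟨x, hx, hx'⟩ := bw_unique hb (hE h hh) (hE h' hh') hj hj'
    exact hx.symm.trans hx'
  have hzero : ∀ j, Bw a b (fun x => (a x).1 = o.σ j) j := fun j =>
    ⟨j, Relation.ReflTransGen.refl, ha1 j⟩
  refine ⟨fun h => Finset.univ.filter fun j => Bw a b (fun x => (a x).1 = h) j, ?_, ?_, ?_⟩
  · intro h hh h' hh' hne
    rw [Finset.disjoint_left]
    intro j hj hj'
    rw [hC] at hj hj'
    exact hne (huniq h (Finset.mem_sdiff.mp hh).2 h' (Finset.mem_sdiff.mp hh').2 j hj hj')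
  · intro Y hY
    have hns : ∀ h ∈ Y, h ∉ s.S := fun h hh => (Finset.mem_sdiff.mp (hY hh)).2
    have hA : ∀ x y, Stp a b x y →
        (∃ h ∈ Y, x ∈ (Finset.univ.filter fun j => Bw a b (fun x => (a x).1 = h) j)) →
        (∃ h ∈ Y, y ∈ (Finset.univ.filter fun j => Bw a b (fun x => (a x).1 = h) j)) := by
      rintro x y hs ⟨h, hh, hx⟩
      rw [hC] at hx
      exact ⟨h, hh, (hC h y).mpr (bw_succ hb (hE h (hns h hh)) hs hx)⟩
    obtain ⟨t, ht, htσ⟩ := sol_of_slot hU (s.S ∪ Y) _ (glue_inj ha hb hA) (by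
      intro j
      by_cases hj : ∃ h ∈ Y, j ∈ (Finset.univ.filter fun j => Bw a b (fun x => (a x).1 = h) j)
      · simp only [if_pos hj]
        obtain ⟨h, hh, hx⟩ := hj
        rw [hC] at hx
        rw [ha1 j, Finset.mem_union]
        by_cases ho : o.σ j ∈ s.S
        · exact Or.inl ho
        · right
          have := huniq h (hns h hh) _ ho j hx (hzero j)
          exact this ▸ hh
      · simp only [if_neg hj]
        rw [hb1 j, Finset.mem_union]
        exact Or.inl (s.mem j))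
    refine ⟨t, ht, fun j => ?_⟩
    rw [htσ j]
    by_cases hj : ∃ h ∈ Y, j ∈ (Finset.univ.filter fun j => Bw a b (fun x => (a x).1 = h) j)
    · rw [if_pos hj, if_pos hj, ha1 j]
    · rw [if_neg hj, if_neg hj, hb1 j]
  · intro Y hY
    have hA : ∀ x y, Stp a b x y →
        (¬ ∃ h ∈ (o.S \ s.S) \ Y,
          x ∈ (Finset.univ.filter fun j => Bw a b (fun x => (a x).1 = h) j)) →
        (¬ ∃ h ∈ (o.S \ s.S) \ Y,
          y ∈ (Finset.univ.filter fun j => Bw a b (fun x => (a x).1 = h) j)) := by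
      rintro x y hs hx ⟨h, hh, hy⟩
      rw [hC] at hy
      exact hx ⟨h, hh, (hC h x).mpr (bw_pred hs hy)⟩
    obtain ⟨t, ht, htσ⟩ := sol_of_slot hU (s.S ∪ Y) _ (glue_inj ha hb hA) (by
      intro j
      by_cases hj : ¬ ∃ h ∈ (o.S \ s.S) \ Y,
          j ∈ (Finset.univ.filter fun j => Bw a b (fun x => (a x).1 = h) j)
      · simp only [if_pos hj]
        rw [ha1 j, Finset.mem_union]
        by_cases ho : o.σ j ∈ s.S
        · exact Or.inl ho
        · right
          by_contra hY'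
          exact hj ⟨o.σ j, Finset.mem_sdiff.mpr ⟨Finset.mem_sdiff.mpr ⟨o.mem j, ho⟩, hY'⟩,
            (hC _ j).mpr (hzero j)⟩
      · simp only [if_neg hj]
        rw [hb1 j, Finset.mem_union]
        exact Or.inl (s.mem j))
    refine ⟨t, ht, fun j => ?_⟩
    rw [htσ j]
    by_cases hj : ∃ h ∈ (o.S \ s.S) \ Y,
        j ∈ (Finset.univ.filter fun j => Bw a b (fun x => (a x).1 = h) j)
    · rw [if_pos hj, if_neg (not_not.mpr hj), hb1 j]
    · rw [if_neg hj, if_pos hj, ha1 j]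

end

end Pool.Agent.LSC
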