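import Pool.Agent.LSC.Con2

/-!
# Restriction to the facilities of a given solution (uniform capacities)
-/

set_option autoImplicit false

namespace Pool.Agent.LSC

open Pool.Agent.Helper82.CKM

section

variable {I : Inst} {u : ℕ}

/-- PROOF. `consolidate` for `D := I.D`, `F := I.F`, `c a b := I.d (Sum.inl a) (Sum.inl b)`, `S := s.S`,
`ω := o.σ`, `σ := s.σ` (`fib_le` for `s` and `o`) gives `τ`; `t := mkSol hU (image τ) τ`. The image
of `o.σ` is in `o.S`. The cost: `d (j, τ j) ≤ d (j, o.σ j) + d (o.σ j, τ j)`. -/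
theorem restrict_core (hU : ∀ i, I.U i = u) (s o : Sol I) :
    ∃ t : Sol I, t.S ⊆ s.S ∧ t.size ≤ o.size ∧
      t.cost ≤ o.cost + ∑ j, I.d (Sum.inl (o.σ j)) (Sum.inl (s.σ j)) := by
  classical
  obtain ⟨τ, h1, h2, h3⟩ := consolidate (D := I.D) (F := I.F) u
    (fun a b => I.d (Sum.inl a) (Sum.inl b)) s.S o.σ s.σ
    ⟨s.mem, fun i => by convert fib_le hU s i⟩ (fun i => by convert fib_le hU o i)
  refine ⟨mkSol hU (Finset.univ.image τ) τ
    (fun j => Finset.mem_image_of_mem _ (Finset.mem_univ j))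
    (fun i => by convert h1.2 i), ?_, ?_, ?_⟩
  · intro x hx
    obtain ⟨j, _, rfl⟩ := Finset.mem_image.1 hx
    exact h1.1 j
  · have h4 : Finset.univ.image o.σ ⊆ o.S := by
      intro x hx
      obtain ⟨j, _, rfl⟩ := Finset.mem_image.1 hx
      exact o.mem j
    have h5 : (Finset.univ.image τ).card ≤ (Finset.univ.image o.σ).card := by convert h2
    exact h5.trans (Finset.card_le_card h4)
  · show ∑ j, I.d (Sum.inr j) (Sum.inl (τ j)) ≤
      ∑ j, I.d (Sum.inr j) (Sum.inl (o.σ j)) + ∑ j, I.d (Sum.inl (o.σ j)) (Sum.inl (s.σ j))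
    have h4 : ∑ j, I.d (Sum.inr j) (Sum.inl (τ j)) ≤
        ∑ j, (I.d (Sum.inr j) (Sum.inl (o.σ j)) + I.d (Sum.inl (o.σ j)) (Sum.inl (τ j))) :=
      Finset.sum_le_sum fun j _ => I.tri _ _ _
    rw [Finset.sum_add_distrib] at h4
    have h5 : ∑ j, I.d (Sum.inl (o.σ j)) (Sum.inl (τ j)) ≤
        ∑ j, I.d (Sum.inl (o.σ j)) (Sum.inl (s.σ j)) := h3
    linarith

/-- PROOF. `restrict_core` and `dist_le`. -/
theorem restrict (hU : ∀ i, I.U i = u) (s o : Sol I) :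
    ∃ t : Sol I, t.S ⊆ s.S ∧ t.size ≤ o.size ∧ t.cost ≤ s.cost + 2 * o.cost := by
  obtain ⟨t, h1, h2, h3⟩ := restrict_core hU s o
  refine ⟨t, h1, h2, ?_⟩
  have h4 : ∑ j, I.d (Sum.inl (o.σ j)) (Sum.inl (s.σ j)) ≤ ∑ j, (cs s j + cs o j) :=
    Finset.sum_le_sum fun j _ => dist_le s o j
  rw [Finset.sum_add_distrib, ← cost_eq, ← cost_eq] at h4
  linarith

end

end Pool.Agent.LSC
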