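import Pool.Agent.LSC.Df

/-!
# Trails of the symmetric difference of two solutions: opening facilities
-/

set_option autoImplicit false

namespace Pool.Agent.LSC

open Pool.Agent.Helper82.CKM

section

variable {D Λ : Type}

/-- one step of a trail: `j'` has in `b` the slot that `j` has in `a` -/
def Stp (a b : D → Λ) (j j' : D) : Prop := b j' = a j

/-- the elements from which an element with `E` can be reached -/
def Bw (a b : D → Λ) (E : D → Prop) (j : D) : Prop :=
  ∃ j', Relation.ReflTransGen (Stp a b) j j' ∧ E j'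

/-- the elements that can be reached from an element with `E` -/
def Fw (a b : D → Λ) (E : D → Prop) (j : D) : Prop :=
  ∃ j₀, E j₀ ∧ Relation.ReflTransGen (Stp a b) j₀ j

open Classical in
/-- PROOF. If `A x`, not `A y` and `a x = b y` then `Stp a b x y`, so `A y`. -/
theorem glue_inj {a b : D → Λ} (ha : Function.Injective a) (hb : Function.Injective b)
    {A : D → Prop} (hA : ∀ x y, Stp a b x y → A x → A y) :
    Function.Injective (fun j => if A j then a j else b j) := by
  intro x y h
  by_cases hx : A x
  · by_cases hy : A y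
    · simp only [hx, hy, if_true] at h
      exact ha h
    · simp only [hx, hy, if_true, if_false] at h
      exact absurd (hA x y h.symm hx) hy
  · by_cases hy : A y
    · simp only [hx, hy, if_true, if_false] at h
      exact absurd (hA y x h hy) hx
    · simp only [hx, hy, if_false] at h
      exact hb h

/-- PROOF. `j` reaches `x` with `E x` and `y` with `E' y`; `Stp` is right unique as `b` is injective, so
one of `x`, `y` reaches the other (`Relation.ReflTransGen.total_of_right_unique`); elements with
`E` or `E'` have no successor, so `x = y`. -/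
theorem bw_unique {a b : D → Λ} (hb : Function.Injective b) {E E' : D → Prop}
    (hE : ∀ x y, E x → ¬ Stp a b x y) (hE' : ∀ x y, E' x → ¬ Stp a b x y) {j : D}
    (h : Bw a b E j) (h' : Bw a b E' j) : ∃ x, E x ∧ E' x := by
  obtain ⟨x, hx, hEx⟩ := h
  obtain ⟨y, hy, hEy⟩ := h'
  have hU : Relator.RightUnique (Stp a b) := fun u v w h1 h2 => hb (h1.trans h2.symm)
  rcases Relation.ReflTransGen.total_of_right_unique hU hx hy with h1 | h1
  · rcases h1.cases_head with h2 | ⟨c, h2, -⟩
    · exact ⟨x, hEx, h2 ▸ hEy⟩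
    · exact absurd h2 (hE x c hEx)
  · rcases h1.cases_head with h2 | ⟨c, h2, -⟩
    · exact ⟨x, hEx, h2 ▸ hEy⟩
    · exact absurd h2 (hE' y c hEy)

/-- PROOF. `j` has a successor, so the trail from `j` to the element with `E` has at least one step, and the
first one is to `j'` (`b` injective). -/
theorem bw_succ {a b : D → Λ} (hb : Function.Injective b) {E : D → Prop}
    (hE : ∀ x y, E x → ¬ Stp a b x y) {j j' : D} (hs : Stp a b j j') (h : Bw a b E j) :
    Bw a b E j' := by
  obtain ⟨x, hx, hEx⟩ := h
  rcases hx.cases_head with h2 | ⟨c, h2, h3⟩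
  · exact absurd hs (hE j j' (h2 ▸ hEx))
  · have h4 : c = j' := hb (h2.trans hs.symm)
    exact ⟨x, h4 ▸ h3, hEx⟩

/-- PROOF. `Relation.ReflTransGen.head`. -/
theorem bw_pred {a b : D → Λ} {E : D → Prop} {j j' : D} (hs : Stp a b j j') (h : Bw a b E j') :
    Bw a b E j := by
  obtain ⟨x, hx, hEx⟩ := h
  exact ⟨x, Relation.ReflTransGen.head hs hx, hEx⟩

/-- PROOF. As `bw_unique`, backwards (`a` injective; apply it to the reversed relation:
`Relation.ReflTransGen.swap`). -/
theorem fw_unique {a b : D → Λ} (ha : Function.Injective a) {E E' : D → Prop}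
    (hE : ∀ x y, E y → ¬ Stp a b x y) (hE' : ∀ x y, E' y → ¬ Stp a b x y) {j : D}
    (h : Fw a b E j) (h' : Fw a b E' j) : ∃ x, E x ∧ E' x := by
  obtain ⟨x, hEx, hx⟩ := h
  obtain ⟨y, hEy, hy⟩ := h'
  have hU : Relator.RightUnique (Function.swap (Stp a b)) := fun u v w h1 h2 => by
    have h3 : b u = a v := h1
    have h4 : b u = a w := h2
    exact ha (h3.symm.trans h4)
  rcases Relation.ReflTransGen.total_of_right_unique hU hx.swap hy.swap with h1 | h1
  · rcases h1.cases_head with h2 | ⟨c, h2, -⟩
    · exact ⟨x, hEx, h2 ▸ hEy⟩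
    · exact absurd h2 (hE c x hEx)
  · rcases h1.cases_head with h2 | ⟨c, h2, -⟩
    · exact ⟨x, hEx, h2 ▸ hEy⟩
    · exact absurd h2 (hE' c y hEy)

/-- PROOF. `Relation.ReflTransGen.tail`. -/
theorem fw_succ {a b : D → Λ} {E : D → Prop} {j j' : D} (hs : Stp a b j j') (h : Fw a b E j) :
    Fw a b E j' := by
  obtain ⟨x, hEx, hx⟩ := h
  exact ⟨x, hEx, hx.tail hs⟩

/-- PROOF. `j'` has a predecessor, so the trail to `j'` has at least one step and the last one is from `j`
(`a` injective). -/
theorem fw_pred {a b : D → Λ} (ha : Function.Injective a) {E : D → Prop}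
    (hE : ∀ x y, E y → ¬ Stp a b x y) {j j' : D} (hs : Stp a b j j') (h : Fw a b E j') :
    Fw a b E j := by
  obtain ⟨x, hEx, hx⟩ := h
  rcases hx.cases_tail with h2 | ⟨c, h2, h3⟩
  · exact absurd hs (hE j j' (h2 ▸ hEx))
  · have h4 : b j' = a c := h3
    have h5 : b j' = a j := hs
    have h6 : c = j := ha (h4.symm.trans h5)
    exact ⟨x, hEx, h6 ▸ h2⟩

end

end Pool.Agent.LSC
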