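import Pool.Agent.LSC.Rs
import Pool.Agent.LSC.Op
import Pool.Agent.LSC.Cl

/-!
# Local optima for uniform capacities
-/

set_option autoImplicit false

namespace Pool.Agent.LSC

open Pool.Agent.Helper82.CKM

section

variable {I : Inst} {u : ℕ}

/-- PROOF. Linear arithmetic: multiply `hv` by `H`, insert `h1`, `hT`, `hw`; what remains is
`q ((q + r) b + (q - r) a - H (a + b)) ≤ q r (b - a) ≤ 0`. -/
theorem numeric {S O a b x y t1 T v H q r : ℝ} (hq : 0 ≤ q) (hr : 0 ≤ r) (hH : q ≤ H)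
    (hb0 : 0 ≤ b) (hba : b ≤ a)
    (hw : q * ((q + r) * (S - b) + (q - r) * (O - a)) ≤ H * ((q + r) * x + (q - r) * y))
    (h1 : t1 = S - (x - y)) (hT : T ≤ O + ((S - b) + (O - a) - (x + y)))
    (hv : (q + r) * v ≤ r * t1 + q * T) :
    H * (q + r) * v ≤ (q + r) * (H - q) * S + q * (2 * H + r - q) * O := by
  have hH0 : 0 ≤ H := hq.trans hH
  have e1 : H * ((q + r) * v) ≤ H * (r * t1 + q * T) := mul_le_mul_of_nonneg_left hv hH0
  have e2 : H * q * T ≤ H * q * (O + ((S - b) + (O - a) - (x + y))) :=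
    mul_le_mul_of_nonneg_left hT (mul_nonneg hH0 hq)
  have e3 : 0 ≤ q * ((H - q) * (a + b)) :=
    mul_nonneg hq (mul_nonneg (sub_nonneg.2 hH) (by linarith))
  have e4 : 0 ≤ q * (r * (a - b)) := mul_nonneg hq (mul_nonneg hr (sub_nonneg.2 hba))
  rw [h1] at e1
  nlinarith [e1, e2, e3, e4, hw]

open Classical in
/-- PROOF. `W := w.S`. `c := w.size - K`. If `c = 0` take `v := w` (then `(q + r) w ≤ r w + q T` by `hwT`).
Otherwise `closing` with `c`: `c ≤ (w.S \ T.S).card =: Z` as `Z ≥ w.size - k` (`T.S ⊆ w.S`,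
`T.size ≤ k`), in fact `c + r ≤ Z`, `c ≤ q`, so `c (q + r) ≤ q Z`. From
`Z v ≤ Z w + c (T - w)` and `T - w ≥ 0`: `(q + r) v ≤ (q + r) w + q (T - w)`. -/
theorem close_some (hU : ∀ i, I.U i = u) (w T : Sol I) (hT : T.S ⊆ w.S)
    (hopt : ∀ v : Sol I, v.S ⊆ w.S → w.cost ≤ v.cost) {k r q : ℕ} (hw : w.size ≤ k + r + q)
    (hk : T.size ≤ k) :
    ∃ v : Sol I, v.S ⊆ w.S ∧ v.size ≤ k + r ∧
      ((q : ℝ) + r) * v.cost ≤ r * w.cost + q * T.cost := by
  have hwT : w.cost ≤ T.cost := hopt T hT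
  have hq0 : (0 : ℝ) ≤ q := Nat.cast_nonneg q
  have hr0 : (0 : ℝ) ≤ r := Nat.cast_nonneg r
  by_cases hc : w.size ≤ k + r
  · refine ⟨w, Finset.Subset.refl _, hc, ?_⟩
    have h1 := mul_le_mul_of_nonneg_left hwT hq0
    linarith
  · have hZ : (w.S \ T.S).card = w.size - T.size := Finset.card_sdiff_of_subset hT
    have hTw : T.size ≤ w.size := Finset.card_le_card hT
    obtain ⟨c, hc1⟩ : ∃ c, w.size = k + r + c := ⟨w.size - (k + r), by omega⟩
    have hcr : c + r ≤ (w.S \ T.S).card := by omega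
    have hcq : c ≤ q := by omega
    have hc0 : 0 < c := by omega
    obtain ⟨v, hv1, hv2, hv3⟩ := closing hU w T hT hopt c (by omega)
    refine ⟨v, hv1, by omega, ?_⟩
    have hcr' : (c : ℝ) + r ≤ ((w.S \ T.S).card : ℝ) := by exact_mod_cast hcr
    have hcq' : (c : ℝ) ≤ q := by exact_mod_cast hcq
    have hc0' : (0 : ℝ) < c := by exact_mod_cast hc0
    set Z : ℝ := ((w.S \ T.S).card : ℝ) with hZdef
    have hZ0 : 0 < Z := by linarith
    have e1 : (c : ℝ) * (q + r) ≤ q * Z := by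
      have h1 := mul_le_mul_of_nonneg_left hcr' hq0
      have h2 := mul_le_mul_of_nonneg_right hcq' hr0
      nlinarith
    have e2 : (c : ℝ) * (q + r) * (T.cost - w.cost) ≤ q * Z * (T.cost - w.cost) :=
      mul_le_mul_of_nonneg_right e1 (sub_nonneg.2 hwT)
    have e3 : ((q : ℝ) + r) * (Z * v.cost) ≤ (q + r) * (Z * w.cost + c * (T.cost - w.cost)) :=
      mul_le_mul_of_nonneg_left hv3 (by linarith)
    have e4 : Z * (((q : ℝ) + r) * v.cost) ≤ Z * (r * w.cost + q * T.cost) := by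
      nlinarith [e2, e3]
    exact le_of_mul_le_mul_left e4 hZ0

open Classical in
/-- One step of the analysis.
PROOF. `H := (o.S \ s.S).card`. `open_classes` gives `C`. `choose_min` for `o.S \ s.S`, `c := q` and the
weights `-∑ j ∈ C h, ((q + r) * cs s j + (q - r) * cs o j)` gives `Y`. `t1` from (i) for `Y`, `t2` from (ii) for `Y`,
`t3` from (ii) for `∅`. `w` from `exists_best` for `s.S ∪ Y` (`v₀ := t1`), so `w.cost ≤ t1.cost`. `T` from `restrict_core` for `t2`, `o`: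
`T.S ⊆ t2.S = w.S`, `T.cost ≤ o.cost + ∑ j, d (o.σ j) (t2.σ j)`, and the sum is over the classes of `(o.S \ s.S) \ Y` (`sum_if` with
`f j := d (o.σ j) (s.σ j)`, `g := 0`; `I.self`), at most `∑ (cs s j + cs o j)` there (`dist_le`). `w.size = s.size + q` (`Y` is disjoint from `s.S`).
`close_some` gives `t`; `t.S \ s.S ⊆ Y`. `numeric` with `S := s.cost`, `O := o.cost`, `b := S - ∑ h ∈ o.S \ s.S, ∑ j ∈ C h, cs s j`,
`a := O - ∑ h ∈ o.S \ s.S, ∑ j ∈ C h, cs o j`, `x := ∑ h ∈ Y, ∑ j ∈ C h, cs s j`, `y := ∑ h ∈ Y, ∑ j ∈ C h, cs o j`. `b ≥ 0`: disjoint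
classes (`sum_if` with `f := 0`, `g := cs s`). `b ≤ a`: `s.cost ≤ t3.cost` (`hown`) and `cost_if` for `t3` with the roles of the two solutions exchanged:
`t3.cost = o.cost + ∑ ∑ (cs s j - cs o j)`. -/
theorem step (hU : ∀ i, I.U i = u) (s o : Sol I) (hown : ∀ t : Sol I, t.S ⊆ s.S → s.cost ≤ t.cost)
    {k r q : ℕ} (hs : s.size ≤ k + r) (ho : o.size ≤ k) (hq : q ≤ (o.S \ s.S).card) :
    ∃ t : Sol I, t.size ≤ k + r ∧ (t.S \ s.S).card ≤ q ∧
      ((o.S \ s.S).card : ℝ) * (q + r) * t.cost ≤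
        (q + r) * ((o.S \ s.S).card - q) * s.cost +
          q * (2 * (o.S \ s.S).card + r - q) * o.cost := by
  obtain ⟨C, hdis, hop1, hop2⟩ := open_classes hU s o
  have hq0 : (0 : ℝ) ≤ q := Nat.cast_nonneg q
  have hr0 : (0 : ℝ) ≤ r := Nat.cast_nonneg r
  obtain ⟨xs, hxs⟩ : ∃ xs : I.F → ℝ, xs = fun h => ∑ j ∈ C h, cs s j := ⟨_, rfl⟩
  obtain ⟨xo, hxo⟩ : ∃ xo : I.F → ℝ, xo = fun h => ∑ j ∈ C h, cs o j := ⟨_, rfl⟩
  obtain ⟨Y, hYX, hYq, hYw⟩ := choose_min (o.S \ s.S)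
    (fun h => -(((q : ℝ) + r) * xs h + (q - r) * xo h)) q hq
  have hdisY : ∀ h ∈ Y, ∀ h' ∈ Y, h ≠ h' → Disjoint (C h) (C h') :=
    fun h hh h' hh' hne => hdis h (hYX hh) h' (hYX hh') hne
  have hdisD : ∀ h ∈ (o.S \ s.S) \ Y, ∀ h' ∈ (o.S \ s.S) \ Y, h ≠ h' → Disjoint (C h) (C h') :=
    fun h hh h' hh' hne => hdis h (Finset.sdiff_subset hh) h' (Finset.sdiff_subset hh') hne
  obtain ⟨t1, ht1, ht1σ⟩ := hop1 Y hYX
  obtain ⟨t2, ht2, ht2σ⟩ := hop2 Y hYX
  obtain ⟨t3, ht3, ht3σ⟩ := hop2 ∅ (Finset.empty_subset _)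
  obtain ⟨w, hwS, hwopt⟩ := exists_best hU (s.S ∪ Y) t1 ht1.le
  obtain ⟨T, hTS, hTk, hTc⟩ := restrict_core hU t2 o
  -- the costs
  have c1 : t1.cost = s.cost - (∑ h ∈ Y, xs h - ∑ h ∈ Y, xo h) := by
    rw [cost_if s o t1 C Y hdisY ht1σ, hxs, hxo]
    simp only [Finset.sum_sub_distrib]
    ring
  have c2 : ∑ j, I.d (Sum.inl (o.σ j)) (Sum.inl (t2.σ j)) ≤
      (∑ h ∈ o.S \ s.S, xs h - ∑ h ∈ Y, xs h) + (∑ h ∈ o.S \ s.S, xo h - ∑ h ∈ Y, xo h) := by
    have e1 : ∑ j, I.d (Sum.inl (o.σ j)) (Sum.inl (t2.σ j)) =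
        ∑ j, (if (∃ h ∈ (o.S \ s.S) \ Y, j ∈ C h) then
          I.d (Sum.inl (o.σ j)) (Sum.inl (s.σ j)) else 0) := by
      refine Finset.sum_congr rfl fun j _ => ?_
      rw [ht2σ j]
      split_ifs with hj
      · rfl
      · exact I.self _
    rw [e1, sum_if _ (fun _ => (0 : ℝ)) C _ hdisD, Finset.sum_const_zero, zero_add]
    have e2 : ∀ f : I.F → ℝ, ∑ h ∈ o.S \ s.S, f h - ∑ h ∈ Y, f h = ∑ h ∈ (o.S \ s.S) \ Y, f h := by
      intro f
      rw [← Finset.sum_sdiff hYX]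
      ring
    rw [e2, e2, ← Finset.sum_add_distrib]
    refine Finset.sum_le_sum fun h _ => ?_
    rw [hxs, hxo, ← Finset.sum_add_distrib]
    refine Finset.sum_le_sum fun j _ => ?_
    rw [sub_zero]
    exact dist_le s o j
  have c3 : 0 ≤ s.cost - ∑ h ∈ o.S \ s.S, xs h := by
    have e1 := sum_if (fun _ => (0 : ℝ)) (cs s) C (o.S \ s.S) hdis
    have e2 : 0 ≤ ∑ j, (if (∃ h ∈ o.S \ s.S, j ∈ C h) then (0 : ℝ) else cs s j) := by
      refine Finset.sum_nonneg fun j _ => ?_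
      split_ifs
      · exact le_rfl
      · exact cs_nonneg s j
    rw [e1] at e2
    simp only [zero_sub, Finset.sum_neg_distrib] at e2
    rw [cost_eq, hxs]
    linarith
  have c4 : s.cost - ∑ h ∈ o.S \ s.S, xs h ≤ o.cost - ∑ h ∈ o.S \ s.S, xo h := by
    have e1 : s.cost ≤ t3.cost := hown t3 (by rw [ht3, Finset.union_empty])
    rw [Finset.sdiff_empty] at ht3σ
    rw [cost_if o s t3 C (o.S \ s.S) hdis ht3σ] at e1
    simp only [Finset.sum_sub_distrib] at e1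
    rw [hxs, hxo]
    linarith
  have c5 : (q : ℝ) * (((q : ℝ) + r) * (∑ h ∈ o.S \ s.S, xs h) +
      (q - r) * (∑ h ∈ o.S \ s.S, xo h)) ≤
      ((o.S \ s.S).card : ℝ) * (((q : ℝ) + r) * (∑ h ∈ Y, xs h) + (q - r) * (∑ h ∈ Y, xo h)) := by
    simp only [Finset.sum_neg_distrib, Finset.sum_add_distrib, ← Finset.mul_sum] at hYw
    linarith
  -- the size
  have hdj : Disjoint s.S Y := by
    rw [Finset.disjoint_left]
    intro x hx hx'
    exact (Finset.mem_sdiff.mp (hYX hx')).2 hx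
  have hwsize : w.size = s.size + q := by
    unfold Sol.size
    rw [hwS, Finset.card_union_of_disjoint hdj, hYq]
  obtain ⟨t, htS, htk, htc⟩ := close_some hU w T (by rw [hwS, ← ht2]; exact hTS)
    (fun v hv => hwopt v (by rw [← hwS]; exact hv)) (k := k) (r := r) (q := q)
    (by omega) (by omega)
  refine ⟨t, htk, ?_, ?_⟩
  · rw [← hYq]
    apply Finset.card_le_card
    intro x hx
    obtain ⟨hx1, hx2⟩ := Finset.mem_sdiff.mp hx
    have hx3 := htS hx1
    rw [hwS, Finset.mem_union] at hx3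
    exact hx3.resolve_left hx2
  · have hw1 : w.cost ≤ t1.cost := hwopt t1 ht1.le
    refine numeric (S := s.cost) (O := o.cost) (a := o.cost - ∑ h ∈ o.S \ s.S, xo h)
      (b := s.cost - ∑ h ∈ o.S \ s.S, xs h) (x := ∑ h ∈ Y, xs h) (y := ∑ h ∈ Y, xo h)
      (t1 := t1.cost) (T := T.cost) hq0 hr0 (by exact_mod_cast hq) c3 c4 ?_ c1 ?_ ?_
    · rw [sub_sub_cancel, sub_sub_cancel]
      exact c5
    · rw [sub_sub_cancel, sub_sub_cancel]
      linarith
    · have := mul_le_mul_of_nonneg_left hw1 hr0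
      linarith

/-- **Local optima for uniform capacities.**
PROOF. `H := (o.S \ s.S).card ≤ k`. If `H = 0` then `o.S ⊆ s.S`, `s.cost ≤ o.cost` (`own`), and
`(1 - η k / p) (p + r) ≤ p + r ≤ 2 k - p + r`. If `1 ≤ H ≤ p`: `step` with `q := H`: `t.cost ≤ o.cost` (divide by
`H (H + r) > 0`), so `(1 - η) s.cost ≤ o.cost`; `η k / p ≥ η`. If `p < H`: `step` with `q := p` and `swap`:
`H (p + r) (1 - η) s ≤ (p + r) (H - p) s + p (2 H + r - p) o`, so `(p + r) (p - η H) s ≤ p (2 H + r - p) o`, divide by `p`,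
and `H ≤ k`. -/
theorem upper (hU : ∀ i, I.U i = u) {k r p : ℕ} {η : ℝ} (hη : 0 ≤ η) (hp : 1 ≤ p) (hpk : p ≤ k)
    (s o : Sol I) (hs : LocOpt (k + r) p η s) (ho : o.size ≤ k) :
    (1 - η * k / p) * (p + r) * s.cost ≤ (2 * k - p + r) * o.cost := by
  classical
  have hS0 : 0 ≤ s.cost := by
    rw [cost_eq]
    exact Finset.sum_nonneg fun j _ => cs_nonneg s j
  have hO0 : 0 ≤ o.cost := by
    rw [cost_eq]
    exact Finset.sum_nonneg fun j _ => cs_nonneg o j
  have hp0 : (0 : ℝ) < p := by exact_mod_cast hp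
  have hr0 : (0 : ℝ) ≤ r := Nat.cast_nonneg r
  have hpk' : (p : ℝ) ≤ k := by exact_mod_cast hpk
  have hpr : (0 : ℝ) < p + r := by linarith
  have hHk : (o.S \ s.S).card ≤ k := (Finset.card_le_card Finset.sdiff_subset).trans ho
  -- a bound `(1 - η) s ≤ o` is enough
  have key : (1 - η) * s.cost ≤ o.cost →
      (1 - η * k / p) * (p + r) * s.cost ≤ (2 * k - p + r) * o.cost := by
    intro h
    have h1 : η ≤ η * k / p := by
      rw [le_div_iff₀ hp0]
      exact mul_le_mul_of_nonneg_left hpk' hη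
    have h2 : (1 - η * k / p) * ((p + r) * s.cost) ≤ (1 - η) * ((p + r) * s.cost) :=
      mul_le_mul_of_nonneg_right (by linarith) (mul_nonneg hpr.le hS0)
    have h3 : ((p : ℝ) + r) * ((1 - η) * s.cost) ≤ (p + r) * o.cost :=
      mul_le_mul_of_nonneg_left h hpr.le
    have h4 : ((p : ℝ) + r) * o.cost ≤ (2 * k - p + r) * o.cost :=
      mul_le_mul_of_nonneg_right (by linarith) hO0
    nlinarith
  obtain ⟨H, hH⟩ : ∃ H, H = (o.S \ s.S).card := ⟨_, rfl⟩
  rw [← hH] at hHk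
  have hHk' : (H : ℝ) ≤ k := by exact_mod_cast hHk
  rcases Nat.eq_zero_or_pos H with h0 | h0
  · have h1 : o.S ⊆ s.S := by
      rw [← Finset.sdiff_eq_empty_iff_subset, ← Finset.card_eq_zero, ← hH]
      exact h0
    have h2 := hs.own o h1
    refine key (le_trans ?_ h2)
    have : 0 ≤ η * s.cost := mul_nonneg hη hS0
    linarith
  · have hH0 : (0 : ℝ) < H := by exact_mod_cast h0
    rcases le_or_gt H p with hHp | hHp
    · obtain ⟨t, h1, h2, h3⟩ := step hU s o hs.own hs.size ho (q := H) hH.le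
      rw [← hH] at h3
      have h4 := hs.swap t h1 (h2.trans hHp)
      refine key (h4.trans ?_)
      have h5 : (0 : ℝ) < (H : ℝ) * (H + r) := by positivity
      have h6 : (H : ℝ) * (H + r) * t.cost ≤ (H : ℝ) * (H + r) * o.cost := by
        refine h3.trans (le_of_eq ?_)
        ring
      exact le_of_mul_le_mul_left h6 h5
    · obtain ⟨t, h1, h2, h3⟩ := step hU s o hs.own hs.size ho (q := p) (by omega)
      rw [← hH] at h3
      have h4 := hs.swap t h1 h2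
      have h5 : (H : ℝ) * (p + r) * ((1 - η) * s.cost) ≤ (H : ℝ) * (p + r) * t.cost :=
        mul_le_mul_of_nonneg_left h4 (by positivity)
      have h6 := h5.trans h3
      have h7 : (p : ℝ) * ((1 - η * H / p) * (p + r) * s.cost) ≤
          p * ((2 * H + r - p) * o.cost) := by
        have e : (p : ℝ) * ((1 - η * H / p) * (p + r) * s.cost) =
            (p - η * H) * ((p + r) * s.cost) := by
          field_simp
        rw [e]
        nlinarith
      have h8 := le_of_mul_le_mul_left h7 hp0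
      have h9 : η * H / p ≤ η * k / p := by gcongr
      have h10 : (1 - η * k / p) * ((p + r) * s.cost) ≤ (1 - η * H / p) * ((p + r) * s.cost) :=
        mul_le_mul_of_nonneg_right (by linarith) (mul_nonneg hpr.le hS0)
      have h11 : (2 * (H : ℝ) + r - p) * o.cost ≤ (2 * k - p + r) * o.cost :=
        mul_le_mul_of_nonneg_right (by linarith) hO0
      nlinarith

end

end Pool.Agent.LSC
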